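import Pool.Agent.Helper47.Rot.Reg

/-!
From a Hölder micro-transitive isometry group to a smooth norm, and the basic calculus of
the duality map and its derivative.
-/

namespace Pool.Agent.Helper47.Rot

open Filter Topology

universe u

section

variable {E : Type u} [NormedAddCommGroup E] [NormedSpace ℝ E]

variable (E) in
/-- Hölder micro-transitivity of the isometry group in operator norm -/
def HolderMicro (C s : ℝ) : Prop :=
  ∀ x y : E, ‖x‖ = 1 → ‖y‖ = 1 →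
    ∃ T : E ≃ₗᵢ[ℝ] E, T x = y ∧ ∀ z, ‖T z - z‖ ≤ C * ‖y - x‖ ^ s * ‖z‖

theorem HolderMicro.reduce {C s : ℝ} (hs : 0 < s) (h : HolderMicro E C s) :
    ∃ C' s' : ℝ, 0 ≤ C' ∧ 0 < s' ∧ s' ≤ 1 ∧ HolderMicro E C' s' := by
  rcases le_or_gt s 1 with h1 | h1
  · refine ⟨|C|, s, abs_nonneg _, hs, h1, fun x y hx hy => ?_⟩
    obtain ⟨T, hT, hTz⟩ := h x y hx hy
    refine ⟨T, hT, fun z => (hTz z).trans ?_⟩
    gcongr
    exact le_abs_self C
  · refine ⟨|C| * 2 ^ (s - 1), 1, by positivity, one_pos, le_rfl, fun x y hx hy => ?_⟩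
    obtain ⟨T, hT, hTz⟩ := h x y hx hy
    refine ⟨T, hT, fun z => (hTz z).trans ?_⟩
    have h2 : ‖y - x‖ ≤ 2 := by
      refine (norm_sub_le _ _).trans ?_
      rw [hx, hy]; norm_num
    have h3 : ‖y - x‖ ^ s ≤ 2 ^ (s - 1) * ‖y - x‖ ^ (1 : ℝ) := by
      rcases eq_or_lt_of_le (norm_nonneg (y - x)) with h0 | h0
      · rw [← h0, Real.zero_rpow hs.ne', Real.rpow_one, mul_zero]
      · have : ‖y - x‖ ^ s = ‖y - x‖ ^ (s - 1) * ‖y - x‖ ^ (1 : ℝ) := by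
          rw [← Real.rpow_add h0]
          congr 1
          ring
        rw [this]
        gcongr
    calc C * ‖y - x‖ ^ s * ‖z‖ ≤ |C| * ‖y - x‖ ^ s * ‖z‖ := by
          gcongr
          exact le_abs_self C
      _ ≤ |C| * (2 ^ (s - 1) * ‖y - x‖ ^ (1 : ℝ)) * ‖z‖ := by gcongr
      _ = _ := by ring

theorem simMicro_of_holder {C s : ℝ} (hC : 0 ≤ C) (hs : 0 < s) (hs1 : s ≤ 1)
    (h : HolderMicro E C s) : SimMicro E s := by
  intro R hR
  refine ⟨R + C * (2 * R) ^ s, (2 * R)⁻¹, by positivity, by positivity, ?_⟩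
  intro x y hx1 hx2 hxy
  have hA := annulus_mono hR hx1 hx2 hxy
  have hR0 : 0 < R := by linarith
  have hRi : 0 < R⁻¹ := by positivity
  have hR2 : 0 < (2 * R)⁻¹ := by positivity
  have hx0 : 0 < ‖x‖ := by linarith
  have hy0 : 0 < ‖y‖ := by linarith [hA.1]
  obtain ⟨T, hT, hTz⟩ := h (‖x‖⁻¹ • x) (‖y‖⁻¹ • y)
    (by rw [norm_smul, norm_inv, norm_norm]; field_simp)
    (by rw [norm_smul, norm_inv, norm_norm]; field_simp)
  set l : ℝ := ‖y‖ / ‖x‖ with hl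
  have hl0 : 0 < l := by positivity
  let M : E ≃L[ℝ] E := (T.toContinuousLinearEquiv).trans
    (ContinuousLinearEquiv.smulLeft (Units.mk0 l hl0.ne'))
  have hM : ∀ z, M z = l • T z := fun z => rfl
  refine ⟨M, ⟨l, hl0, fun z => ?_⟩, ?_, ?_⟩
  · rw [hM, norm_smul, Real.norm_of_nonneg hl0.le, LinearIsometryEquiv.norm_map]
  · rw [hM]
    have h1 : T x = ‖x‖ • (‖y‖⁻¹ • y) := by
      rw [← hT, ← map_smul, smul_smul, mul_inv_cancel₀ hx0.ne', one_smul]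
    rw [h1, smul_smul, smul_smul, hl]
    have : ‖y‖ / ‖x‖ * (‖x‖ * ‖y‖⁻¹) = 1 := by field_simp
    rw [show ‖y‖ / ‖x‖ * ‖x‖ * ‖y‖⁻¹ = 1 by field_simp, one_smul]
  · intro z
    set t : ℝ := ‖y - x‖ with ht
    have ht0 : 0 ≤ t := norm_nonneg _
    have ht1 : t ≤ 1 := by
      refine hxy.trans ?_
      apply inv_le_one_of_one_le₀
      linarith
    have hts : t ≤ t ^ s := by
      calc t = t ^ (1 : ℝ) := (Real.rpow_one t).symm
        _ ≤ t ^ s := Real.rpow_le_rpow_of_exponent_ge_of_imp ht0 ht1 hs1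
            (fun _ h => absurd h one_ne_zero)
    have h2 : |l - 1| ≤ R * t := by
      have e1 : l - 1 = (‖y‖ - ‖x‖) * ‖x‖⁻¹ := by
        rw [hl]; field_simp
      rw [e1, abs_mul, abs_of_pos (by positivity : 0 < ‖x‖⁻¹)]
      have h3 : |‖y‖ - ‖x‖| ≤ t := abs_norm_sub_norm_le _ _
      have h4 : ‖x‖⁻¹ ≤ R := by
        have := inv_anti₀ hRi hx1
        simpa using this
      calc |‖y‖ - ‖x‖| * ‖x‖⁻¹ ≤ t * R := by gcongr
        _ = R * t := mul_comm _ _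
    have h5 : ‖‖y‖⁻¹ • y - ‖x‖⁻¹ • x‖ ≤ 2 * R * t := by
      have e1 : ‖y‖⁻¹ • y - ‖x‖⁻¹ • x = ‖x‖⁻¹ • (y - x) + (‖x‖⁻¹ * (‖x‖ - ‖y‖)) • (‖y‖⁻¹ • y) := by
        rw [smul_sub, smul_smul, mul_sub, sub_mul, inv_mul_cancel₀ hx0.ne', mul_assoc,
          mul_inv_cancel₀ hy0.ne', one_mul, mul_one, sub_smul]
        abel
      have h4 : ‖x‖⁻¹ ≤ R := by
        have := inv_anti₀ hRi hx1
        simpa using this
      rw [e1]
      refine (norm_add_le _ _).trans ?_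
      rw [norm_smul, norm_smul, norm_smul, norm_mul, norm_inv, norm_norm, norm_inv, norm_norm,
        inv_mul_cancel₀ hy0.ne', mul_one]
      have h3 : ‖‖x‖ - ‖y‖‖ ≤ t := by
        rw [Real.norm_eq_abs, abs_sub_comm]
        exact abs_norm_sub_norm_le _ _
      calc ‖x‖⁻¹ * ‖y - x‖ + ‖x‖⁻¹ * ‖‖x‖ - ‖y‖‖ ≤ R * t + R * t := by gcongr
        _ = _ := by ring
    have h6 : ‖T z - z‖ ≤ C * ((2 * R) ^ s * t ^ s) * ‖z‖ := by
      refine (hTz z).trans ?_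
      have : ‖‖y‖⁻¹ • y - ‖x‖⁻¹ • x‖ ^ s ≤ (2 * R) ^ s * t ^ s := by
        rw [← Real.mul_rpow (by positivity) ht0]
        gcongr
      gcongr
    have e2 : M z - z = (l - 1) • T z + (T z - z) := by
      rw [hM, sub_smul, one_smul]
      abel
    rw [e2]
    refine (norm_add_le _ _).trans ?_
    rw [norm_smul, Real.norm_eq_abs, LinearIsometryEquiv.norm_map]
    have h7 : |l - 1| * ‖z‖ ≤ R * t ^ s * ‖z‖ := by
      calc |l - 1| * ‖z‖ ≤ (R * t) * ‖z‖ := by gcongr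
        _ ≤ _ := by gcongr
    calc |l - 1| * ‖z‖ + ‖T z - z‖ ≤ R * t ^ s * ‖z‖ + C * ((2 * R) ^ s * t ^ s) * ‖z‖ :=
          add_le_add h7 h6
      _ = _ := by ring

/-- half the square of the norm -/
noncomputable def Nf (x : E) : ℝ := ‖x‖ ^ 2 / 2

/-- the duality map -/
noncomputable def Jf (x : E) : E →L[ℝ] ℝ := fderiv ℝ (Nf : E → ℝ) x

/-- its derivative -/
noncomputable def qf (x : E) : E →L[ℝ] E →L[ℝ] ℝ := fderiv ℝ (Jf : E → E →L[ℝ] ℝ) x

/-- the action on scalars -/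
noncomputable def actN (e : E) (M : E ≃L[ℝ] E) : ℝ →L[ℝ] ℝ :=
  (‖M e‖ ^ 2) • ContinuousLinearMap.id ℝ ℝ

theorem equi_Nf {e : E} (he : ‖e‖ = 1) : Equi 3 (actN e) (Nf : E → ℝ) := by
  refine ⟨by norm_num, ?_, ?_, ?_⟩
  · rintro M ⟨c, hc, hM⟩ x _
    simp only [actN, Nf, smul_apply, ContinuousLinearMap.id_apply, smul_eq_mul,
      hM, he]
    ring
  · rintro M _ b hb0 hb hMz v
    have h1 := hMz e
    rw [he, mul_one] at h1
    have h2 : |‖M e‖ - 1| ≤ b := by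
      have := abs_norm_sub_norm_le (M e) e
      rw [he] at this
      linarith
    have h3 := abs_le.1 h2
    simp only [actN, smul_apply, ContinuousLinearMap.id_apply, smul_eq_mul]
    have e1 : ‖M e‖ ^ 2 * v - v = (‖M e‖ ^ 2 - 1) * v := by ring
    rw [e1, norm_mul]
    gcongr
    rw [Real.norm_eq_abs, abs_le]
    constructor <;> nlinarith
  · intro R hR
    refine ⟨R ^ 2 / 2, fun x _ h2 => ?_⟩
    unfold Nf
    rw [Real.norm_of_nonneg (by positivity)]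
    gcongr

variable {s : ℝ}

theorem equi_Jf {e : E} (he : ‖e‖ = 1) (hs : 0 < s) (hE : SimMicro E s) :
    Equi (2 * 3 + 2) (derivAct (actN e)) (Jf : E → E →L[ℝ] ℝ) :=
  (equi_Nf he).derivEqui hs hE

theorem equi_qf {e : E} (he : ‖e‖ = 1) (hs : 0 < s) (hE : SimMicro E s) :
    Equi (2 * (2 * 3 + 2) + 2) (derivAct (derivAct (actN e))) (qf : E → E →L[ℝ] E →L[ℝ] ℝ) :=
  (equi_Jf he hs hE).derivEqui hs hE

theorem hasFDerivAt_Nf {e : E} (he : ‖e‖ = 1) (hs : 0 < s) (hE : SimMicro E s) {x : E}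
    (hx : x ≠ 0) : HasFDerivAt (Nf : E → ℝ) (Jf x) x :=
  ((equi_Nf he).differentiableAt hs hE hx).hasFDerivAt

theorem hasFDerivAt_Jf {e : E} (he : ‖e‖ = 1) (hs : 0 < s) (hE : SimMicro E s) {x : E}
    (hx : x ≠ 0) : HasFDerivAt (Jf : E → E →L[ℝ] ℝ) (qf x) x :=
  ((equi_Jf he hs hE).differentiableAt hs hE hx).hasFDerivAt

/-- invariance of `J` under isometries -/
theorem Jf_map (T : E ≃ₗᵢ[ℝ] E) (x v : E) : Jf (T x) (T v) = Jf x v := by
  have h1 : (Nf : E → ℝ) ∘ (T.toContinuousLinearEquiv : E → E) = Nf := by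
    funext z
    simp [Nf]
  have h2 := (T.toContinuousLinearEquiv).comp_right_fderiv (f := (Nf : E → ℝ)) (x := x)
  rw [h1] at h2
  unfold Jf
  rw [h2]
  rfl

/-- invariance of `q` under isometries -/
theorem qf_map (T : E ≃ₗᵢ[ℝ] E) (x u v : E) : qf (T x) (T u) (T v) = qf x u v := by
  let Φ : (E →L[ℝ] ℝ) ≃L[ℝ] (E →L[ℝ] ℝ) :=
    (T.toContinuousLinearEquiv).arrowCongr (ContinuousLinearEquiv.refl ℝ ℝ)
  have hΦ : ∀ (f : E →L[ℝ] ℝ) z, Φ f (T z) = f z := by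
    intro f z
    simp [Φ, ContinuousLinearEquiv.arrowCongr_apply]
  have h1 : (Jf : E → E →L[ℝ] ℝ) ∘ (T.toContinuousLinearEquiv : E → E) = Φ ∘ Jf := by
    funext z
    ext v
    obtain ⟨v, rfl⟩ := T.surjective v
    simp only [Function.comp_apply, hΦ]
    exact Jf_map T z v
  have h2 := (T.toContinuousLinearEquiv).comp_right_fderiv (f := (Jf : E → E →L[ℝ] ℝ)) (x := x)
  rw [h1, Φ.comp_fderiv] at h2
  have h3 := congrArg (fun A : E →L[ℝ] E →L[ℝ] ℝ => A u (T v)) h2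
  simp only [ContinuousLinearMap.comp_apply, ContinuousLinearEquiv.coe_coe] at h3
  rw [hΦ] at h3
  exact h3.symm

theorem Jf_smul {c : ℝ} (hc : 0 < c) (x : E) : Jf (c • x) = c • Jf x := by
  let D : E ≃L[ℝ] E := ContinuousLinearEquiv.smulLeft (Units.mk0 c hc.ne')
  have hD : ∀ z, D z = c • z := fun z => rfl
  have h1 : (Nf : E → ℝ) ∘ (D : E → E) = fun z => (c ^ 2) • Nf z := by
    funext z
    simp only [Function.comp_apply, hD, Nf, norm_smul, Real.norm_of_nonneg hc.le, smul_eq_mul]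
    ring
  have h2 := D.comp_right_fderiv (f := (Nf : E → ℝ)) (x := x)
  rw [h1] at h2
  have h3 : fderiv ℝ (fun z : E => (c ^ 2) • Nf z) x = (c ^ 2) • fderiv ℝ (Nf : E → ℝ) x := by
    exact congrFun (fderiv_const_smul_field (c ^ 2) (f := (Nf : E → ℝ))) x
  rw [h3] at h2
  ext v
  have h4 := congrArg (fun A : E →L[ℝ] ℝ => A v) h2
  simp only [ContinuousLinearMap.comp_apply, ContinuousLinearEquiv.coe_coe, hD,
    smul_apply, smul_eq_mul, map_smul] at h4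
  unfold Jf
  rw [smul_apply, smul_eq_mul]
  have h5 : c * (c * fderiv ℝ (Nf : E → ℝ) x v) = c * fderiv ℝ (Nf : E → ℝ) (c • x) v := by
    rw [← h4]; ring
  exact (mul_left_cancel₀ hc.ne' h5).symm

theorem Jf_self {e : E} (he : ‖e‖ = 1) (hs : 0 < s) (hE : SimMicro E s) {x : E} (hx : x ≠ 0) :
    Jf x x = ‖x‖ ^ 2 := by
  have h1 : HasDerivAt (fun c : ℝ => Nf (c • x)) (Jf x x) 1 := by
    have h2 : HasFDerivAt (Nf : E → ℝ) (Jf x) ((1 : ℝ) • x) := by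
      rw [one_smul]; exact hasFDerivAt_Nf he hs hE hx
    have h3 : HasDerivAt (fun c : ℝ => c • x) x 1 := by
      simpa using (hasDerivAt_id (1 : ℝ)).smul_const x
    exact h2.comp_hasDerivAt 1 h3
  have h4 : HasDerivAt (fun c : ℝ => Nf (c • x)) (‖x‖ ^ 2) 1 := by
    have h5 : (fun c : ℝ => Nf (c • x)) = fun c => c ^ 2 * (‖x‖ ^ 2 / 2) := by
      funext c
      unfold Nf
      rw [norm_smul, mul_pow, Real.norm_eq_abs, sq_abs]
      ring
    rw [h5]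
    have h6 := (hasDerivAt_pow 2 (1 : ℝ)).mul_const (‖x‖ ^ 2 / 2)
    have h7 : ((2 : ℕ) : ℝ) * 1 ^ (2 - 1) * (‖x‖ ^ 2 / 2) = ‖x‖ ^ 2 := by
      push_cast
      ring
    exact h6.congr_deriv h7
  exact h1.unique h4

theorem qf_self {e : E} (he : ‖e‖ = 1) (hs : 0 < s) (hE : SimMicro E s) {x : E} (hx : x ≠ 0) :
    qf x x = Jf x := by
  have h1 : HasDerivAt (fun c : ℝ => Jf (c • x)) (qf x x) 1 := by
    have h2 : HasFDerivAt (Jf : E → E →L[ℝ] ℝ) (qf x) ((1 : ℝ) • x) := by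
      rw [one_smul]; exact hasFDerivAt_Jf he hs hE hx
    have h3 : HasDerivAt (fun c : ℝ => c • x) x 1 := by
      simpa using (hasDerivAt_id (1 : ℝ)).smul_const x
    exact h2.comp_hasDerivAt 1 h3
  have h4 : HasDerivAt (fun c : ℝ => Jf (c • x)) (Jf x) 1 := by
    have h5 : (fun c : ℝ => Jf (c • x)) =ᶠ[𝓝 1] fun c => c • Jf x := by
      filter_upwards [lt_mem_nhds (zero_lt_one : (0 : ℝ) < 1)] with c hc
      exact Jf_smul hc x
    have h6 : HasDerivAt (fun c : ℝ => c • Jf x) (Jf x) 1 := by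
      simpa using (hasDerivAt_id (1 : ℝ)).smul_const (Jf x)
    exact h6.congr_of_eventuallyEq h5
  exact h1.unique h4

theorem qf_symm {e : E} (he : ‖e‖ = 1) (hs : 0 < s) (hE : SimMicro E s) {x : E} (hx : x ≠ 0)
    (u v : E) : qf x u v = qf x v u := by
  refine second_derivative_symmetric_of_eventually (f := (Nf : E → ℝ)) (f' := Jf) (x := x) ?_ ?_ u v
  · have : ∀ᶠ z in 𝓝 x, z ≠ 0 := isOpen_ne.mem_nhds hx
    filter_upwards [this] with z hz
    exact hasFDerivAt_Nf he hs hE hz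
  · exact hasFDerivAt_Jf he hs hE hx

theorem norm_Jf_le {x : E} (hx : ‖x‖ = 1) : ‖Jf x‖ ≤ 1 := by
  refine le_of_forall_pos_le_add fun ε hε => ?_
  unfold Jf
  apply norm_fderiv_le_of_lip' ℝ (by linarith)
  have h1 : ∀ᶠ y in 𝓝 x, ‖y‖ < 1 + ε := by
    have := (continuous_norm (E := E)).tendsto x
    exact this.eventually (gt_mem_nhds (by rw [hx]; linarith))
  filter_upwards [h1] with y hy
  unfold Nf
  have e1 : ‖y‖ ^ 2 / 2 - ‖x‖ ^ 2 / 2 = (‖y‖ - ‖x‖) * ((‖y‖ + ‖x‖) / 2) := by ring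
  rw [e1, norm_mul, Real.norm_of_nonneg (by positivity : 0 ≤ (‖y‖ + ‖x‖) / 2)]
  have h2 : ‖‖y‖ - ‖x‖‖ ≤ ‖y - x‖ := by
    rw [Real.norm_eq_abs]
    exact abs_norm_sub_norm_le _ _
  have h3 : (‖y‖ + ‖x‖) / 2 ≤ 1 + ε := by rw [hx]; linarith
  calc ‖‖y‖ - ‖x‖‖ * ((‖y‖ + ‖x‖) / 2) ≤ ‖y - x‖ * (1 + ε) := by gcongr
    _ = _ := mul_comm _ _

end

end Pool.Agent.Helper47.Rot
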