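import Mathlib

/-!
Second differences of order `1 + s` imply differentiability.
-/

namespace Pool.Agent.Helper47.Rot

open Filter Topology

section

variable {E V : Type*} [NormedAddCommGroup E] [NormedSpace ℝ E] [NormedAddCommGroup V]
  [NormedSpace ℝ V]

/-- rescaled increments -/
noncomputable def inc (f : E → V) (y v : E) (k : ℕ) : V :=
  (2 : ℝ) ^ k • (f (y + ((2 : ℝ) ^ k)⁻¹ • v) - f y)

theorem inc_succ_smul (f : E → V) (y v : E) (k : ℕ) :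
    inc f y ((2 : ℝ) • v) (k + 1) = (2 : ℝ) • inc f y v k := by
  unfold inc
  have h1 : ((2 : ℝ) ^ (k + 1))⁻¹ • (2 : ℝ) • v = ((2 : ℝ) ^ k)⁻¹ • v := by
    rw [smul_smul]
    congr 1
    rw [pow_succ]
    field_simp
  rw [h1, smul_smul, pow_succ, mul_comm]

theorem inc_step {f : E → V} {y : E} {K s r : ℝ}
    (h2 : ∀ m v, ‖m - y‖ ≤ r → ‖v‖ ≤ r →
      ‖f (m + v) + f (m - v) - (2 : ℝ) • f m‖ ≤ K * ‖v‖ ^ (1 + s))
    (v : E) (hv : ‖v‖ ≤ r) (k : ℕ) :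
    dist (inc f y v k) (inc f y v (k + 1)) ≤ (K * ‖v‖ ^ (1 + s) * 2⁻¹ ^ (1 + s)) * ((2⁻¹ : ℝ) ^ s) ^ k := by
  set w : E := ((2 : ℝ) ^ (k + 1))⁻¹ • v with hw
  have h2k : (0 : ℝ) < 2 ^ (k + 1) := by positivity
  have hwn : ‖w‖ = ((2 : ℝ) ^ (k + 1))⁻¹ * ‖v‖ := by
    rw [hw, norm_smul, norm_inv, norm_pow, Real.norm_ofNat]
  have hwle : ‖w‖ ≤ r := by
    rw [hwn]
    have : ((2 : ℝ) ^ (k + 1))⁻¹ ≤ 1 := by
      apply inv_le_one_of_one_le₀
      exact one_le_pow₀ (by norm_num)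
    nlinarith [norm_nonneg v]
  have h := h2 (y + w) w (by simpa using hwle) hwle
  have e1 : y + w + w = y + ((2 : ℝ) ^ k)⁻¹ • v := by
    rw [add_assoc, ← two_smul ℝ w, hw, smul_smul]
    congr 2
    rw [pow_succ]
    field_simp
  have e2 : y + w - w = y := by abel
  rw [e1, e2] at h
  have e3 : inc f y v k - inc f y v (k + 1)
      = (2 : ℝ) ^ k • (f (y + ((2 : ℝ) ^ k)⁻¹ • v) + f y - (2 : ℝ) • f (y + w)) := by
    unfold inc
    rw [← hw, pow_succ]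
    module
  rw [dist_eq_norm, e3, norm_smul, norm_pow, Real.norm_ofNat]
  have hpow : (2 : ℝ) ^ k * ‖w‖ ^ (1 + s) = ‖v‖ ^ (1 + s) * 2⁻¹ ^ (1 + s) * ((2⁻¹ : ℝ) ^ s) ^ k := by
    rw [hwn, Real.mul_rpow (by positivity) (norm_nonneg v)]
    have hA : (((2 : ℝ) ^ (k + 1))⁻¹) ^ (1 + s) = 2⁻¹ ^ (1 + s) * ((2 : ℝ) ^ k)⁻¹ * ((2⁻¹ : ℝ) ^ s) ^ k := by
      have h0 : ((2 : ℝ) ^ (k + 1))⁻¹ = (2⁻¹ : ℝ) ^ ((k : ℝ) + 1) := by
        rw [← inv_pow, ← Real.rpow_natCast]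
        push_cast
        rfl
      rw [h0, ← Real.rpow_mul (by norm_num), ← Real.rpow_natCast ((2⁻¹ : ℝ) ^ s) k,
        ← Real.rpow_mul (by norm_num), ← Real.rpow_natCast (2 : ℝ) k]
      have h1 : ((2 : ℝ) ^ (k : ℝ))⁻¹ = (2⁻¹ : ℝ) ^ (k : ℝ) := by
        rw [Real.inv_rpow (by norm_num)]
      rw [h1, ← Real.rpow_add (by norm_num), ← Real.rpow_add (by norm_num)]
      congr 1
      ring
    rw [hA]
    field_simp
  calc (2 : ℝ) ^ k * ‖f (y + ((2 : ℝ) ^ k)⁻¹ • v) + f y - (2 : ℝ) • f (y + w)‖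
      ≤ (2 : ℝ) ^ k * (K * ‖w‖ ^ (1 + s)) := by gcongr
    _ = K * ((2 : ℝ) ^ k * ‖w‖ ^ (1 + s)) := by ring
    _ = _ := by rw [hpow]; ring

theorem differentiableAt_of_second_diff [CompleteSpace V] {f : E → V} {y : E} {K L s r : ℝ}
    (hs : 0 < s) (hr : 0 < r)
    (hL : ∀ v, ‖v‖ ≤ r → ‖f (y + v) - f y‖ ≤ L * ‖v‖)
    (h2 : ∀ m v, ‖m - y‖ ≤ r → ‖v‖ ≤ r →
      ‖f (m + v) + f (m - v) - (2 : ℝ) • f m‖ ≤ K * ‖v‖ ^ (1 + s)) :
    DifferentiableAt ℝ f y := by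
  have hq : ((2⁻¹ : ℝ) ^ s) < 1 := Real.rpow_lt_one (by norm_num) (by norm_num) hs
  -- scaling
  have hscale : ∀ (v : E) (k j : ℕ), inc f y v (k + j) = (2 : ℝ) ^ j • inc f y (((2 : ℝ) ^ j)⁻¹ • v) k := by
    intro v k j
    unfold inc
    have h1 : ((2 : ℝ) ^ (k + j))⁻¹ • v = ((2 : ℝ) ^ k)⁻¹ • ((2 : ℝ) ^ j)⁻¹ • v := by
      rw [smul_smul, pow_add, mul_inv]
    rw [h1, pow_add, mul_comm ((2 : ℝ) ^ k), mul_smul]
  have hsmall : ∀ v : E, ∃ j : ℕ, ‖((2 : ℝ) ^ j)⁻¹ • v‖ ≤ r := by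
    intro v
    have : Tendsto (fun j : ℕ => ((2 : ℝ)⁻¹) ^ j * ‖v‖) atTop (𝓝 (0 * ‖v‖)) :=
      (tendsto_pow_atTop_nhds_zero_of_lt_one (by norm_num) (by norm_num)).mul_const _
    rw [zero_mul] at this
    obtain ⟨j, hj⟩ := (this.eventually (gt_mem_nhds hr)).exists
    refine ⟨j, ?_⟩
    rw [norm_smul, norm_inv, norm_pow, Real.norm_ofNat, ← inv_pow]
    exact hj.le
  have hlim : ∀ v : E, ∃ d : V, Tendsto (inc f y v) atTop (𝓝 d) := by
    intro v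
    obtain ⟨j, hj⟩ := hsmall v
    have hc : CauchySeq (inc f y (((2 : ℝ) ^ j)⁻¹ • v)) :=
      cauchySeq_of_le_geometric _ _ hq (inc_step h2 _ hj)
    obtain ⟨d, hd⟩ := cauchySeq_tendsto_of_complete hc
    refine ⟨(2 : ℝ) ^ j • d, ?_⟩
    have h3 : Tendsto (fun k => inc f y v (k + j)) atTop (𝓝 ((2 : ℝ) ^ j • d)) := by
      simp only [hscale v _ j]
      exact hd.const_smul _
    exact (tendsto_add_atTop_iff_nat j).1 h3
  choose D hD using hlim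
  have hD2 : ∀ v, D ((2 : ℝ) • v) = (2 : ℝ) • D v := by
    intro v
    have h1 : Tendsto (fun k => inc f y ((2 : ℝ) • v) (k + 1)) atTop (𝓝 (D ((2 : ℝ) • v))) :=
      (tendsto_add_atTop_iff_nat 1).2 (hD _)
    simp only [inc_succ_smul] at h1
    exact tendsto_nhds_unique h1 ((hD v).const_smul _)
  have hK : Tendsto (fun k : ℕ => ((2 : ℝ)⁻¹ ^ s) ^ k) atTop (𝓝 0) :=
    tendsto_pow_atTop_nhds_zero_of_lt_one (by positivity) hq
  have hpow : ∀ (v : E) (k : ℕ), (2 : ℝ) ^ k * ‖((2 : ℝ) ^ k)⁻¹ • v‖ ^ (1 + s)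
      = ‖v‖ ^ (1 + s) * ((2⁻¹ : ℝ) ^ s) ^ k := by
    intro v k
    rw [norm_smul, norm_inv, norm_pow, Real.norm_ofNat, Real.mul_rpow (by positivity) (norm_nonneg v)]
    have hA : (((2 : ℝ) ^ k)⁻¹) ^ (1 + s) = ((2 : ℝ) ^ k)⁻¹ * ((2⁻¹ : ℝ) ^ s) ^ k := by
      have h0 : ((2 : ℝ) ^ k)⁻¹ = (2⁻¹ : ℝ) ^ (k : ℝ) := by
        rw [← inv_pow, ← Real.rpow_natCast]
      rw [h0, ← Real.rpow_mul (by norm_num), ← Real.rpow_natCast ((2⁻¹ : ℝ) ^ s) k,
        ← Real.rpow_mul (by norm_num), ← Real.rpow_add (by norm_num)]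
      congr 1
      ring
    rw [hA]
    field_simp
  have hadd : ∀ u v, D (u + v) = D u + D v := by
    intro u v
    -- second difference at the midpoint
    have h1 : Tendsto (fun k => inc f y ((2 : ℝ) • u) k + inc f y ((2 : ℝ) • v) k
        - (2 : ℝ) • inc f y (u + v) k) atTop
        (𝓝 (D ((2 : ℝ) • u) + D ((2 : ℝ) • v) - (2 : ℝ) • D (u + v))) :=
      ((hD _).add (hD _)).sub ((hD _).const_smul _)
    have h3 : Tendsto (fun k => inc f y ((2 : ℝ) • u) k + inc f y ((2 : ℝ) • v) k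
        - (2 : ℝ) • inc f y (u + v) k) atTop (𝓝 0) := by
      obtain ⟨j₁, hj₁⟩ := hsmall (u + v)
      obtain ⟨j₂, hj₂⟩ := hsmall (u - v)
      apply squeeze_zero_norm' (a := fun k => K * ‖u - v‖ ^ (1 + s) * (((2 : ℝ)⁻¹ ^ s) ^ k))
      · filter_upwards [eventually_ge_atTop (max j₁ j₂)] with k hk
        have hk1 : ‖((2 : ℝ) ^ k)⁻¹ • (u + v)‖ ≤ r := by
          refine le_trans ?_ hj₁
          rw [norm_smul, norm_smul]
          gcongr
          rw [norm_inv, norm_inv, norm_pow, norm_pow, Real.norm_ofNat]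
          gcongr
          · norm_num
          · exact le_trans (le_max_left _ _) hk
        have hk2 : ‖((2 : ℝ) ^ k)⁻¹ • (u - v)‖ ≤ r := by
          refine le_trans ?_ hj₂
          rw [norm_smul, norm_smul]
          gcongr
          rw [norm_inv, norm_inv, norm_pow, norm_pow, Real.norm_ofNat]
          gcongr
          · norm_num
          · exact le_trans (le_max_right _ _) hk
        have h4 := h2 (y + ((2 : ℝ) ^ k)⁻¹ • (u + v)) (((2 : ℝ) ^ k)⁻¹ • (u - v))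
          (by simpa using hk1) hk2
        have e1 : y + ((2 : ℝ) ^ k)⁻¹ • (u + v) + ((2 : ℝ) ^ k)⁻¹ • (u - v)
            = y + ((2 : ℝ) ^ k)⁻¹ • ((2 : ℝ) • u) := by module
        have e2 : y + ((2 : ℝ) ^ k)⁻¹ • (u + v) - ((2 : ℝ) ^ k)⁻¹ • (u - v)
            = y + ((2 : ℝ) ^ k)⁻¹ • ((2 : ℝ) • v) := by module
        rw [e1, e2] at h4
        have e3 : inc f y ((2 : ℝ) • u) k + inc f y ((2 : ℝ) • v) k - (2 : ℝ) • inc f y (u + v) k
            = (2 : ℝ) ^ k • (f (y + ((2 : ℝ) ^ k)⁻¹ • ((2 : ℝ) • u))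
              + f (y + ((2 : ℝ) ^ k)⁻¹ • ((2 : ℝ) • v))
              - (2 : ℝ) • f (y + ((2 : ℝ) ^ k)⁻¹ • (u + v))) := by
          unfold inc
          module
        rw [e3, norm_smul, norm_pow, Real.norm_ofNat]
        calc (2 : ℝ) ^ k * ‖f (y + ((2 : ℝ) ^ k)⁻¹ • ((2 : ℝ) • u))
              + f (y + ((2 : ℝ) ^ k)⁻¹ • ((2 : ℝ) • v))
              - (2 : ℝ) • f (y + ((2 : ℝ) ^ k)⁻¹ • (u + v))‖
            ≤ (2 : ℝ) ^ k * (K * ‖((2 : ℝ) ^ k)⁻¹ • (u - v)‖ ^ (1 + s)) := by gcongr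
          _ = K * ((2 : ℝ) ^ k * ‖((2 : ℝ) ^ k)⁻¹ • (u - v)‖ ^ (1 + s)) := by ring
          _ = _ := by rw [hpow]; ring
      · have := hK.const_mul (K * ‖u - v‖ ^ (1 + s))
        simpa using this
    have h5 := tendsto_nhds_unique h1 h3
    rw [hD2, hD2, ← smul_add, ← smul_sub] at h5
    have h6 := (smul_eq_zero.1 h5).resolve_left (by norm_num)
    exact (sub_eq_zero.1 h6).symm
  have hbound : ∀ v, ‖D v‖ ≤ |L| * ‖v‖ := by
    intro v
    apply le_of_tendsto ((hD v).norm)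
    obtain ⟨j, hj⟩ := hsmall v
    filter_upwards [eventually_ge_atTop j] with k hk
    have hk1 : ‖((2 : ℝ) ^ k)⁻¹ • v‖ ≤ r := by
      refine le_trans ?_ hj
      rw [norm_smul, norm_smul]
      gcongr
      rw [norm_inv, norm_inv, norm_pow, norm_pow, Real.norm_ofNat]
      gcongr
      norm_num
    unfold inc
    rw [norm_smul, norm_pow, Real.norm_ofNat]
    have h7 := hL _ hk1
    calc (2 : ℝ) ^ k * ‖f (y + ((2 : ℝ) ^ k)⁻¹ • v) - f y‖
        ≤ (2 : ℝ) ^ k * (L * ‖((2 : ℝ) ^ k)⁻¹ • v‖) := by gcongr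
      _ ≤ (2 : ℝ) ^ k * (|L| * ‖((2 : ℝ) ^ k)⁻¹ • v‖) := by
          gcongr
          exact le_abs_self L
      _ = |L| * ‖v‖ := by
          rw [norm_smul, norm_inv, norm_pow, Real.norm_ofNat]
          field_simp
  let A : E →+ V := AddMonoidHom.mk' D hadd
  have hAc : Continuous A := by
    exact AddMonoidHomClass.continuous_of_bound A |L| hbound
  let DL : E →L[ℝ] V := A.toRealLinearMap hAc
  have hDL : ∀ v, DL v = D v := fun v => rfl
  -- the error estimate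
  set Q : ℝ := ((2 : ℝ)⁻¹ ^ s) with hQ
  have herr : ∀ v, ‖v‖ ≤ r → ‖f (y + v) - f y - DL v‖
      ≤ (|K| * 2⁻¹ ^ (1 + s) / (1 - Q)) * ‖v‖ ^ (1 + s) := by
    intro v hv
    have h8 := dist_le_of_le_geometric_of_tendsto₀ _ _ hq (inc_step h2 v hv) (hD v)
    rw [dist_eq_norm] at h8
    have h9 : inc f y v 0 = f (y + v) - f y := by
      unfold inc
      simp
    rw [h9, ← hDL] at h8
    refine h8.trans ?_
    have h1Q : 0 < 1 - Q := by linarith
    rw [div_mul_eq_mul_div]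
    refine div_le_div_of_nonneg_right ?_ h1Q.le
    have h1K := le_abs_self K
    have h1P : 0 ≤ ‖v‖ ^ (1 + s) * (2⁻¹ : ℝ) ^ (1 + s) := by positivity
    nlinarith
  refine HasFDerivAt.differentiableAt (f' := DL) ?_
  rw [hasFDerivAt_iff_isLittleO_nhds_zero]
  have hO : (fun h => f (y + h) - f y - DL h) =O[𝓝 0] fun h : E => ‖h‖ ^ (1 + s) := by
    apply Asymptotics.IsBigO.of_bound (|K| * 2⁻¹ ^ (1 + s) / (1 - Q))
    have : ∀ᶠ h : E in 𝓝 0, ‖h‖ ≤ r := by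
      have := (continuous_norm (E := E)).tendsto 0
      rw [norm_zero] at this
      exact (this.eventually (gt_mem_nhds hr)).mono fun _ h => h.le
    filter_upwards [this] with h hh
    rw [Real.norm_of_nonneg (by positivity : (0 : ℝ) ≤ ‖h‖ ^ (1 + s))]
    exact herr h hh
  have ho : (fun h : E => ‖h‖ ^ (1 + s)) =o[𝓝 0] fun h : E => h := by
    rw [← Asymptotics.isLittleO_norm_right]
    have h10 : (fun h : E => ‖h‖ ^ (1 + s)) = fun h => ‖h‖ ^ s * ‖h‖ := by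
      funext h
      rcases eq_or_lt_of_le (norm_nonneg h) with h0 | h0
      · rw [← h0, Real.zero_rpow (by linarith), Real.zero_rpow (by linarith)]
        ring
      · rw [Real.rpow_add h0, Real.rpow_one]
        ring
    rw [h10]
    have h11 : Tendsto (fun h : E => ‖h‖ ^ s) (𝓝 0) (𝓝 0) := by
      have := (continuous_norm (E := E)).tendsto 0
      rw [norm_zero] at this
      have h12 := (Real.continuousAt_rpow_const 0 s (Or.inr hs.le)).tendsto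
      rw [Real.zero_rpow hs.ne'] at h12
      exact h12.comp this
    have h13 : (fun h : E => ‖h‖ ^ s) =o[𝓝 0] (fun _ : E => (1 : ℝ)) :=
      (Asymptotics.isLittleO_one_iff ℝ).2 h11
    simpa using h13.mul_isBigO (Asymptotics.isBigO_refl (fun h : E => ‖h‖) (𝓝 0))
  exact hO.trans_isLittleO ho

end

end Pool.Agent.Helper47.Rot
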