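import Pool.Agent.Helper47.Rot.Main2

/-!
From one point to the whole sphere, from almost to exact, and the parallelogram law.
-/

namespace Pool.Agent.Helper47.Rot

open Finset Filter Topology

universe u

section

variable {E : Type u} [NormedAddCommGroup E] [NormedSpace ℝ E]

theorem parallelogram_of_holder {C s : ℝ} (hs : 0 < s) (h : HolderMicro E C s) (x y : E) :
    ‖x + y‖ * ‖x + y‖ + ‖x - y‖ * ‖x - y‖ = 2 * (‖x‖ * ‖x‖ + ‖y‖ * ‖y‖) := by
  obtain ⟨C', s', hC', hs', hs1', h'⟩ := h.reduce hs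
  rcases eq_or_ne x 0 with hx0 | hx0
  · rw [hx0, zero_add, zero_sub, norm_neg, norm_zero]; ring
  rcases eq_or_ne y 0 with hy0 | hy0
  · rw [hy0, add_zero, sub_zero, norm_zero]; ring
  rcases eq_or_ne (x + y) 0 with hxy | hxy
  · have : x = -y := eq_neg_of_add_eq_zero_left hxy
    rw [this, neg_add_cancel, norm_zero, ← neg_add', norm_neg, norm_neg, ← two_smul ℝ y, norm_smul,
      Real.norm_ofNat]
    ring
  rcases eq_or_ne (x - y) 0 with hxy' | hxy'
  · have : x = y := sub_eq_zero.1 hxy'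
    rw [this, sub_self, norm_zero, ← two_smul ℝ y, norm_smul, Real.norm_ofNat]
    ring
  have hxn : 0 < ‖x‖ := norm_pos_iff.2 hx0
  set e : E := ‖x‖⁻¹ • x with he
  have he1 : ‖e‖ = 1 := by
    rw [he, norm_smul, norm_inv, norm_norm]
    field_simp
  have hE := simMicro_of_holder hC' hs' hs1' h'
  have hF : ∀ a b : E, ‖a‖ = 1 → ‖b‖ = 1 → Jf a b = Jf b a := by
    intro a b ha hb
    have h1 := asym_le_zero he1 hC' hs' hs1' h' a b ha hb
    have h2 := asym_le_zero he1 hC' hs' hs1' h' b a hb ha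
    unfold Fa at h1 h2
    linarith
  have hG : ∀ a b : E, a ≠ 0 → b ≠ 0 → Jf a b = Jf b a := by
    intro a b ha hb
    have ha0 : 0 < ‖a‖ := norm_pos_iff.2 ha
    have hb0 : 0 < ‖b‖ := norm_pos_iff.2 hb
    have h1 := hF (‖a‖⁻¹ • a) (‖b‖⁻¹ • b) (by rw [norm_smul, norm_inv, norm_norm]; field_simp)
      (by rw [norm_smul, norm_inv, norm_norm]; field_simp)
    rw [Jf_smul (by positivity), Jf_smul (by positivity), map_smul, map_smul, smul_apply,
      smul_apply, smul_eq_mul, smul_eq_mul, smul_eq_mul, smul_eq_mul] at h1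
    have h2 : ‖b‖⁻¹ * ‖a‖⁻¹ * (Jf a b - Jf b a) = 0 := by
      linarith
    rcases mul_eq_zero.1 h2 with h3 | h3
    · exfalso
      have : 0 < ‖b‖⁻¹ * ‖a‖⁻¹ := by positivity
      linarith
    · linarith
  have h1 : ‖x + y‖ ^ 2 = ‖x‖ ^ 2 + 2 * Jf x y + ‖y‖ ^ 2 := by
    rw [← Jf_self he1 hs' hE hxy, map_add, hG _ _ hxy hx0, hG _ _ hxy hy0, map_add, map_add,
      Jf_self he1 hs' hE hx0, Jf_self he1 hs' hE hy0, hG y x hy0 hx0]
    ring
  have h2 : ‖x - y‖ ^ 2 = ‖x‖ ^ 2 - 2 * Jf x y + ‖y‖ ^ 2 := by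
    rw [← Jf_self he1 hs' hE hxy', map_sub, hG _ _ hxy' hx0, hG _ _ hxy' hy0, map_sub, map_sub,
      Jf_self he1 hs' hE hx0, Jf_self he1 hs' hE hy0, hG y x hy0 hx0]
    ring
  linarith

/-- a local condition at one point gives the Hölder condition on the whole sphere -/
theorem holder_of_local {x₀ : E} (hx₀ : ‖x₀‖ = 1) {C s δ : ℝ} (hs : 0 < s) (hδ : 0 < δ)
    (h : ∀ y : E, ‖y‖ = 1 → ‖y - x₀‖ < δ → ∃ T : E ≃ₗᵢ[ℝ] E, T x₀ = y ∧
      ∀ z, ‖T z - z‖ ≤ C * ‖y - x₀‖ ^ s * ‖z‖) :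
    ∃ C', HolderMicro E C' s := by
  -- transitivity
  set O : Set E := {y | ∃ T : E ≃ₗᵢ[ℝ] E, T x₀ = y} with hO
  have hx₀O : x₀ ∈ O := ⟨1, rfl⟩
  have hstep : ∀ z ∈ O, ∀ y : E, ‖y‖ = 1 → ‖y - z‖ < δ → y ∈ O := by
    rintro z ⟨R, rfl⟩ y hy hyz
    have h1 : ‖R.symm y - x₀‖ < δ := by
      rw [← LinearIsometryEquiv.norm_map R, map_sub, LinearIsometryEquiv.apply_symm_apply]
      exact hyz
    obtain ⟨T, hT, -⟩ := h (R.symm y) (by rw [LinearIsometryEquiv.norm_map, hy]) h1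
    refine ⟨R * T, ?_⟩
    change R (T x₀) = y
    rw [hT, LinearIsometryEquiv.apply_symm_apply]
  have hall : ∀ y : E, ‖y‖ = 1 → y ∈ O := by
    rcases le_or_gt (Module.rank ℝ E) 1 with hrk | hrk
    · obtain ⟨v₀, hv₀⟩ := rank_le_one_iff.1 hrk
      intro y hy
      obtain ⟨r₀, hr₀⟩ := hv₀ x₀
      obtain ⟨r₁, hr₁⟩ := hv₀ y
      have hr₀0 : r₀ ≠ 0 := by
        rintro rfl
        rw [zero_smul] at hr₀
        rw [← hr₀, norm_zero] at hx₀
        exact zero_ne_one hx₀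
      have hyx : y = (r₁ / r₀) • x₀ := by
        rw [← hr₀, smul_smul, ← hr₁]
        congr 1
        field_simp
      have habs : |r₁ / r₀| = 1 := by
        rw [hyx, norm_smul, hx₀, mul_one, Real.norm_eq_abs] at hy
        exact hy
      rcases (abs_eq zero_le_one).1 habs with h1 | h1
      · rw [h1, one_smul] at hyx
        rw [hyx]
        exact hx₀O
      · rw [h1, neg_smul, one_smul] at hyx
        exact ⟨LinearIsometryEquiv.neg ℝ, by rw [hyx]; rfl⟩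
    · have hconn := isPreconnected_sphere hrk (0 : E) 1
      intro y hy
      by_contra hyO
      set U : Set E := ⋃ z ∈ {z | z ∈ O ∧ ‖z‖ = 1}, Metric.ball z (δ / 2) with hU
      set V : Set E := ⋃ z ∈ {z | z ∉ O ∧ ‖z‖ = 1}, Metric.ball z (δ / 2) with hV
      have hUo : IsOpen U := isOpen_biUnion fun _ _ => Metric.isOpen_ball
      have hVo : IsOpen V := isOpen_biUnion fun _ _ => Metric.isOpen_ball
      have hδ2 : 0 < δ / 2 := by positivity
      have hcov : Metric.sphere (0 : E) 1 ⊆ U ∪ V := by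
        intro z hz
        rw [mem_sphere_zero_iff_norm] at hz
        by_cases hzO : z ∈ O
        · exact Or.inl (Set.mem_biUnion (show z ∈ {z | z ∈ O ∧ ‖z‖ = 1} from ⟨hzO, hz⟩)
            (Metric.mem_ball_self hδ2))
        · exact Or.inr (Set.mem_biUnion (show z ∈ {z | z ∉ O ∧ ‖z‖ = 1} from ⟨hzO, hz⟩)
            (Metric.mem_ball_self hδ2))
      obtain ⟨w, hw1, hwU, hwV⟩ := hconn U V hUo hVo hcov
        ⟨x₀, mem_sphere_zero_iff_norm.2 hx₀, Set.mem_biUnion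
          (show x₀ ∈ {z | z ∈ O ∧ ‖z‖ = 1} from ⟨hx₀O, hx₀⟩) (Metric.mem_ball_self hδ2)⟩
        ⟨y, mem_sphere_zero_iff_norm.2 hy, Set.mem_biUnion
          (show y ∈ {z | z ∉ O ∧ ‖z‖ = 1} from ⟨hyO, hy⟩) (Metric.mem_ball_self hδ2)⟩
      rw [hU, Set.mem_iUnion₂] at hwU
      rw [hV, Set.mem_iUnion₂] at hwV
      obtain ⟨z₁, ⟨hz₁O, hz₁⟩, hwz₁⟩ := hwU
      obtain ⟨z₂, ⟨hz₂O, hz₂⟩, hwz₂⟩ := hwV
      rw [mem_ball_iff_norm] at hwz₁ hwz₂
      apply hz₂O
      apply hstep z₁ hz₁O z₂ hz₂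
      have : z₂ - z₁ = -(w - z₂) + (w - z₁) := by abel
      rw [this]
      refine (norm_add_le _ _).trans_lt ?_
      rw [norm_neg]
      linarith
  refine ⟨max C (2 / δ ^ s), fun x y hx hy => ?_⟩
  rcases lt_or_ge ‖y - x‖ δ with h1 | h1
  · obtain ⟨R, hR⟩ := hall x hx
    have h2 : ‖R.symm y - x₀‖ = ‖y - x‖ := by
      rw [← LinearIsometryEquiv.norm_map R (R.symm y - x₀), map_sub,
        LinearIsometryEquiv.apply_symm_apply, hR]
    obtain ⟨T, hT, hTz⟩ := h (R.symm y) (by rw [LinearIsometryEquiv.norm_map, hy])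
      (by rw [h2]; exact h1)
    refine ⟨(R.symm.trans T).trans R, ?_, ?_⟩
    · change R (T (R.symm x)) = y
      rw [← hR, LinearIsometryEquiv.symm_apply_apply, hT, LinearIsometryEquiv.apply_symm_apply]
    · intro z
      have e1 : ((R.symm.trans T).trans R) z - z = R (T (R.symm z) - R.symm z) := by
        rw [map_sub, LinearIsometryEquiv.apply_symm_apply]
        rfl
      rw [e1, LinearIsometryEquiv.norm_map]
      refine (hTz _).trans ?_
      rw [h2, LinearIsometryEquiv.norm_map]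
      gcongr
      exact le_max_left _ _
  · obtain ⟨R, hR⟩ := hall x hx
    obtain ⟨Q, hQ⟩ := hall y hy
    refine ⟨R.symm.trans Q, ?_, ?_⟩
    · change Q (R.symm x) = y
      rw [← hR, LinearIsometryEquiv.symm_apply_apply, hQ]
    · intro z
      refine (norm_sub_le _ _).trans ?_
      rw [LinearIsometryEquiv.norm_map]
      have h2 : 2 ≤ 2 / δ ^ s * ‖y - x‖ ^ s := by
        rw [div_mul_eq_mul_div, le_div_iff₀ (by positivity)]
        gcongr
      have h3 : 2 / δ ^ s * ‖y - x‖ ^ s ≤ max C (2 / δ ^ s) * ‖y - x‖ ^ s := by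
        gcongr
        exact le_max_right _ _
      nlinarith [norm_nonneg z]

/-- in a complete space an almost transitive Hölder condition at one point is an exact one -/
theorem exact_of_almost [CompleteSpace E] {x₀ : E} {C s δ : ℝ} (hC : 0 ≤ C)
    (hs : 0 < s) (hδ : 0 < δ)
    (h : ∀ y : E, ‖y‖ = 1 → ‖y - x₀‖ < δ → ∀ η : ℝ, 0 < η → ∃ T : E ≃ₗᵢ[ℝ] E, ‖T x₀ - y‖ < η ∧
      ∀ z, ‖T z - z‖ ≤ C * ‖y - x₀‖ ^ s * ‖z‖) (y : E) (hy : ‖y‖ = 1) (hyx : ‖y - x₀‖ < δ) :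
    ∃ T : E ≃ₗᵢ[ℝ] E, T x₀ = y ∧ ∀ z, ‖T z - z‖ ≤ (2 * C) * ‖y - x₀‖ ^ s * ‖z‖ := by
  rcases eq_or_ne y x₀ with hyx₀ | hyx₀
  · refine ⟨1, hyx₀.symm, fun z => ?_⟩
    change ‖z - z‖ ≤ _
    rw [sub_self, norm_zero]
    positivity
  have hd : 0 < ‖y - x₀‖ := norm_pos_iff.2 (sub_ne_zero.2 hyx₀)
  set d : ℝ := ‖y - x₀‖ with hdd
  -- radii
  have hrad : ∀ k : ℕ, ∃ η : ℝ, 0 < η ∧ η ≤ δ ∧ η ≤ (1 / 2) ^ k ∧
      C * η ^ s ≤ (C * d ^ s / 2) * (1 / 2) ^ k := by
    intro k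
    rcases eq_or_lt_of_le hC with hC0 | hC0
    · refine ⟨min δ ((1 / 2) ^ k), by positivity, min_le_left _ _, min_le_right _ _, ?_⟩
      rw [← hC0]; simp
    · have h1 : Tendsto (fun η : ℝ => C * η ^ s) (𝓝[>] 0) (𝓝 (C * 0 ^ s)) :=
        (((Real.continuousAt_rpow_const 0 s (Or.inr hs.le)).tendsto).const_mul C).mono_left
          nhdsWithin_le_nhds
      rw [Real.zero_rpow hs.ne', mul_zero] at h1
      have h2 : (0 : ℝ) < (C * d ^ s / 2) * (1 / 2) ^ k := by positivity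
      have h3 : ∀ᶠ η in 𝓝[>] (0 : ℝ), η < min δ ((1 / 2) ^ k) :=
        nhdsWithin_le_nhds (gt_mem_nhds (by positivity))
      have h4 : ∀ᶠ η in 𝓝[>] (0 : ℝ), 0 < η := self_mem_nhdsWithin
      obtain ⟨η, ha, hb, hc⟩ := ((h1.eventually (gt_mem_nhds h2)).and (h3.and h4)).exists
      exact ⟨η, hc, hb.le.trans (min_le_left _ _), hb.le.trans (min_le_right _ _), ha.le⟩
  choose η hη0 hηδ hη2 hηC using hrad
  -- one step
  have hstep : ∀ (k : ℕ) (P : {P : E ≃ₗᵢ[ℝ] E // ‖P x₀ - y‖ < η k}),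
      ∃ P' : {P' : E ≃ₗᵢ[ℝ] E // ‖P' x₀ - y‖ < η (k + 1)},
        (∀ z, ‖P'.1 z - P.1 z‖ ≤ ((C * d ^ s / 2) * (1 / 2) ^ k) * ‖z‖) ∧
        (∀ z, ‖P'.1.symm z - P.1.symm z‖ ≤ ((C * d ^ s / 2) * (1 / 2) ^ k) * ‖z‖) := by
    rintro k ⟨P, hP⟩
    have h1 : ‖P.symm y - x₀‖ < η k := by
      rw [← LinearIsometryEquiv.norm_map P, map_sub, LinearIsometryEquiv.apply_symm_apply,
        norm_sub_rev]
      exact hP
    obtain ⟨T, hT, hTz⟩ := h (P.symm y) (by rw [LinearIsometryEquiv.norm_map, hy])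
      (h1.trans_le (hηδ k)) (η (k + 1)) (hη0 _)
    have hTz' : ∀ z, ‖T z - z‖ ≤ ((C * d ^ s / 2) * (1 / 2) ^ k) * ‖z‖ := by
      intro z
      refine (hTz z).trans ?_
      have : C * ‖P.symm y - x₀‖ ^ s ≤ C * η k ^ s := by gcongr
      have := this.trans (hηC k)
      gcongr
    refine ⟨⟨T.trans P, ?_⟩, ?_, ?_⟩
    · change ‖P (T x₀) - y‖ < _
      have : P (T x₀) - y = P (T x₀ - P.symm y) := by
        rw [map_sub, LinearIsometryEquiv.apply_symm_apply]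
      rw [this, LinearIsometryEquiv.norm_map]
      exact hT
    · intro z
      change ‖P (T z) - P z‖ ≤ _
      rw [← map_sub, LinearIsometryEquiv.norm_map]
      exact hTz' z
    · intro z
      change ‖T.symm (P.symm z) - P.symm z‖ ≤ _
      have h2 := hTz' (T.symm (P.symm z))
      rw [LinearIsometryEquiv.apply_symm_apply, norm_sub_rev, LinearIsometryEquiv.norm_map,
        LinearIsometryEquiv.norm_map] at h2
      exact h2
  choose F hF1 hF2 using hstep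
  obtain ⟨T₀, hT₀, hT₀z⟩ := h y hy hyx (η 0) (hη0 0)
  let P : (k : ℕ) → {P : E ≃ₗᵢ[ℝ] E // ‖P x₀ - y‖ < η k} := fun k =>
    Nat.rec (motive := fun k => {P : E ≃ₗᵢ[ℝ] E // ‖P x₀ - y‖ < η k}) ⟨T₀, hT₀⟩
      (fun k P => F k P) k
  have hPs : ∀ k, P (k + 1) = F k (P k) := fun k => rfl
  have hP0 : (P 0).1 = T₀ := rfl
  set A : ℕ → E →L[ℝ] E := fun k => ((P k).1.toContinuousLinearEquiv : E →L[ℝ] E) with hA
  set B : ℕ → E →L[ℝ] E := fun k => ((P k).1.symm.toContinuousLinearEquiv : E →L[ℝ] E) with hB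
  have hAz : ∀ k z, A k z = (P k).1 z := fun _ _ => rfl
  have hBz : ∀ k z, B k z = (P k).1.symm z := fun _ _ => rfl
  have hdA : ∀ k, dist (A k) (A (k + 1)) ≤ (C * d ^ s / 2) * (1 / 2) ^ k := by
    intro k
    rw [dist_comm, dist_eq_norm]
    apply ContinuousLinearMap.opNorm_le_bound _ (by positivity)
    intro z
    exact hF1 k (P k) z
  have hdB : ∀ k, dist (B k) (B (k + 1)) ≤ (C * d ^ s / 2) * (1 / 2) ^ k := by
    intro k
    rw [dist_comm, dist_eq_norm]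
    apply ContinuousLinearMap.opNorm_le_bound _ (by positivity)
    intro z
    exact hF2 k (P k) z
  obtain ⟨AL, hAlim⟩ := cauchySeq_tendsto_of_complete
    (cauchySeq_of_le_geometric _ _ (by norm_num : (1 / 2 : ℝ) < 1) hdA)
  obtain ⟨BL, hBlim⟩ := cauchySeq_tendsto_of_complete
    (cauchySeq_of_le_geometric _ _ (by norm_num : (1 / 2 : ℝ) < 1) hdB)
  have hAB : ∀ z, AL (BL z) = z := by
    intro z
    have h1 : Tendsto (fun k => A k * B k) atTop (𝓝 (AL * BL)) := hAlim.mul hBlim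
    have h2 : (fun k => A k * B k) = fun _ => (1 : E →L[ℝ] E) := by
      funext k
      ext z
      change (P k).1 ((P k).1.symm z) = z
      exact LinearIsometryEquiv.apply_symm_apply _ _
    rw [h2] at h1
    have h3 := tendsto_nhds_unique h1 tendsto_const_nhds
    have h4 := congrArg (fun M : E →L[ℝ] E => M z) h3
    exact h4
  have hBA : ∀ z, BL (AL z) = z := by
    intro z
    have h1 : Tendsto (fun k => B k * A k) atTop (𝓝 (BL * AL)) := hBlim.mul hAlim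
    have h2 : (fun k => B k * A k) = fun _ => (1 : E →L[ℝ] E) := by
      funext k
      ext z
      change (P k).1.symm ((P k).1 z) = z
      exact LinearIsometryEquiv.symm_apply_apply _ _
    rw [h2] at h1
    have h3 := tendsto_nhds_unique h1 tendsto_const_nhds
    have h4 := congrArg (fun M : E →L[ℝ] E => M z) h3
    exact h4
  have hAapp : ∀ z, Tendsto (fun k => (P k).1 z) atTop (𝓝 (AL z)) := by
    intro z
    exact ((ContinuousLinearMap.apply ℝ E z).continuous.tendsto AL).comp hAlim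
  have hnorm : ∀ z, ‖AL z‖ = ‖z‖ := by
    intro z
    have h1 : Tendsto (fun k => ‖(P k).1 z‖) atTop (𝓝 ‖AL z‖) := (hAapp z).norm
    simp only [LinearIsometryEquiv.norm_map] at h1
    exact tendsto_nhds_unique h1 tendsto_const_nhds |>.symm ▸ rfl
  let Tl : E ≃ₗ[ℝ] E := LinearEquiv.ofLinearMap (AL : E →ₗ[ℝ] E) (BL : E →ₗ[ℝ] E)
    (by ext z; exact hAB z) (by ext z; exact hBA z)
  let T : E ≃ₗᵢ[ℝ] E := ⟨Tl, hnorm⟩
  have hTA : ∀ z, T z = AL z := fun _ => rfl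
  refine ⟨T, ?_, ?_⟩
  · rw [hTA]
    have h1 : Tendsto (fun k => ‖(P k).1 x₀ - y‖) atTop (𝓝 0) := by
      apply squeeze_zero (fun _ => norm_nonneg _) (fun k => (P k).2.le.trans (hη2 k))
      exact tendsto_pow_atTop_nhds_zero_of_lt_one (by norm_num) (by norm_num)
    have h2 : Tendsto (fun k => (P k).1 x₀) atTop (𝓝 y) :=
      tendsto_iff_norm_sub_tendsto_zero.2 h1
    exact tendsto_nhds_unique (hAapp x₀) h2
  · intro z
    rw [hTA]
    have h1 := dist_le_of_le_geometric_of_tendsto₀ _ _ (by norm_num : (1 / 2 : ℝ) < 1) hdA hAlim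
    rw [dist_comm, dist_eq_norm] at h1
    have h2 := (AL - A 0).le_opNorm z
    rw [sub_apply] at h2
    have h3 : ‖A 0 z - z‖ ≤ C * d ^ s * ‖z‖ := by
      rw [hAz, hP0]
      exact hT₀z z
    have e1 : AL z - z = (AL z - A 0 z) + (A 0 z - z) := by abel
    rw [e1]
    refine (norm_add_le _ _).trans ?_
    have h4 : ‖AL - A 0‖ * ‖z‖ ≤ (C * d ^ s) * ‖z‖ := by
      gcongr
      refine h1.trans (le_of_eq ?_)
      ring
    linarith

end

end Pool.Agent.Helper47.Rot
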