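import Pool.Agent.Helper47.Rot.Basic

/-!
Uniform constants for the duality map of a smooth norm.
-/

namespace Pool.Agent.Helper47.Rot

open Filter Topology

universe u

section

variable {E : Type u} [NormedAddCommGroup E] [NormedSpace ℝ E]

theorem taylor_one {V : Type*} [NormedAddCommGroup V] [NormedSpace ℝ V] {f : E → V}
    {f' : E → E →L[ℝ] V} {x : E} {L r : ℝ} (hL : 0 ≤ L)
    (hf : ∀ y, ‖y - x‖ ≤ r → HasFDerivAt f (f' y) y)
    (hf' : ∀ y, ‖y - x‖ ≤ r → ‖f' y - f' x‖ ≤ L * ‖y - x‖) (h : E) (hh : ‖h‖ ≤ r) :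
    ‖f (x + h) - f x - f' x h‖ ≤ L * ‖h‖ ^ 2 := by
  have h1 : ∀ y ∈ Metric.closedBall x ‖h‖, HasFDerivWithinAt f (f' y) (Metric.closedBall x ‖h‖) y := by
    intro y hy
    rw [mem_closedBall_iff_norm] at hy
    exact (hf y (hy.trans hh)).hasFDerivWithinAt
  have h2 : ∀ y ∈ Metric.closedBall x ‖h‖, ‖f' y - f' x‖ ≤ L * ‖h‖ := by
    intro y hy
    rw [mem_closedBall_iff_norm] at hy
    refine (hf' y (hy.trans hh)).trans ?_
    gcongr
  have h3 := Convex.norm_image_sub_le_of_norm_hasFDerivWithin_le' (φ := f' x) h1 h2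
    (convex_closedBall x ‖h‖) (Metric.mem_closedBall_self (norm_nonneg h))
    (y := x + h) (by rw [mem_closedBall_iff_norm]; simp)
  rw [add_sub_cancel_left] at h3
  refine h3.trans (le_of_eq ?_)
  ring

variable (E) in
/-- the uniform calculus of the unit sphere -/
structure Geo (K r : ℝ) : Prop where
  K1 : 1 ≤ K
  rpos : 0 < r
  r1 : r ≤ 1 / 2
  jself : ∀ x : E, ‖x‖ = 1 → Jf x x = 1
  jle : ∀ x : E, ‖x‖ = 1 → ∀ v, |Jf x v| ≤ ‖v‖
  jlip : ∀ x y : E, ‖x‖ = 1 → ‖y‖ = 1 → ∀ v, |Jf y v - Jf x v| ≤ K * ‖y - x‖ * ‖v‖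
  jT : ∀ x : E, ‖x‖ = 1 → ∀ h, ‖h‖ ≤ r → ∀ v,
    |Jf (x + h) v - Jf x v - qf x h v| ≤ K * ‖h‖ ^ 2 * ‖v‖
  qself : ∀ x : E, ‖x‖ = 1 → ∀ v, qf x x v = Jf x v
  qsymm : ∀ x : E, ‖x‖ = 1 → ∀ u v, qf x u v = qf x v u
  qbd : ∀ x : E, ‖x‖ = 1 → ∀ u v, |qf x u v| ≤ K * ‖u‖ * ‖v‖
  qlip : ∀ x y : E, ‖x‖ = 1 → ‖y‖ = 1 → ∀ u v,
    |qf y u v - qf x u v| ≤ K * ‖y - x‖ * ‖u‖ * ‖v‖
  nT : ∀ x : E, ‖x‖ = 1 → ∀ h, ‖h‖ ≤ r → ‖x + h‖ ≤ 1 + Jf x h + K * ‖h‖ ^ 2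

omit [NormedSpace ℝ E] in
theorem ne_zero_of_norm_one {x : E} (hx : ‖x‖ = 1) : x ≠ 0 := by
  intro h
  rw [h, norm_zero] at hx
  exact zero_ne_one hx

theorem exists_geo {e : E} (he : ‖e‖ = 1) {s : ℝ} (hs : 0 < s) (hE : SimMicro E s) :
    ∃ K r : ℝ, Geo E K r := by
  obtain ⟨L₁, r₁, hL₁, hr₁, H₁⟩ := (equi_Jf he hs hE).lip hs hE 1 le_rfl
  obtain ⟨L₂, r₂, hL₂, hr₂, H₂⟩ := (equi_qf he hs hE).lip hs hE 1 le_rfl
  obtain ⟨B, hB⟩ := (equi_qf he hs hE).bdd 1 le_rfl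
  rw [inv_one] at H₁ H₂ hB
  have hB0 : 0 ≤ B := (norm_nonneg _).trans (hB e he.ge he.le)
  set r : ℝ := min (min r₁ r₂) (1 / 2) with hr
  have hrp : 0 < r := by positivity
  have hr1 : r ≤ r₁ := (min_le_left _ _).trans (min_le_left _ _)
  have hr2 : r ≤ r₂ := (min_le_left _ _).trans (min_le_right _ _)
  set K : ℝ := 1 + L₁ + L₂ + B + 2 / r₁ + 2 * B / r₂ with hK
  have hK1 : 1 ≤ K := by
    rw [hK]
    have : 0 ≤ L₁ + L₂ + B + 2 / r₁ + 2 * B / r₂ := by positivity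
    linarith
  have hKL1 : L₁ ≤ K := by
    rw [hK]
    have : 0 ≤ 1 + L₂ + B + 2 / r₁ + 2 * B / r₂ := by positivity
    linarith
  have hKL2 : L₂ ≤ K := by
    rw [hK]
    have : 0 ≤ 1 + L₁ + B + 2 / r₁ + 2 * B / r₂ := by positivity
    linarith
  have hKB : B ≤ K := by
    rw [hK]
    have : 0 ≤ 1 + L₁ + L₂ + 2 / r₁ + 2 * B / r₂ := by positivity
    linarith
  have hKr1 : 2 / r₁ ≤ K := by
    rw [hK]
    have : 0 ≤ 1 + L₁ + L₂ + B + 2 * B / r₂ := by positivity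
    linarith
  have hKr2 : 2 * B / r₂ ≤ K := by
    rw [hK]
    have : 0 ≤ 1 + L₁ + L₂ + B + 2 / r₁ := by positivity
    linarith
  have hK0 : 0 ≤ K := by linarith
  have hne : ∀ x y : E, ‖x‖ = 1 → ‖y - x‖ ≤ r → y ≠ 0 := by
    intro x y hx hy h0
    rw [h0, zero_sub, norm_neg, hx] at hy
    have : r ≤ 1 / 2 := min_le_right _ _
    linarith
  have hJ : ∀ x y : E, ‖x‖ = 1 → ‖y‖ = 1 → ‖Jf y - Jf x‖ ≤ K * ‖y - x‖ := by
    intro x y hx hy
    rcases le_or_gt ‖y - x‖ r₁ with h | h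
    · refine (H₁ x hx.ge hx.le y h).trans ?_
      gcongr
    · have h1 : ‖Jf y - Jf x‖ ≤ 2 := by
        refine (norm_sub_le _ _).trans ?_
        have := norm_Jf_le hx
        have := norm_Jf_le hy
        linarith
      have h2 : 2 ≤ 2 / r₁ * ‖y - x‖ := by
        rw [div_mul_eq_mul_div, le_div_iff₀ hr₁]
        linarith
      calc ‖Jf y - Jf x‖ ≤ 2 / r₁ * ‖y - x‖ := h1.trans h2
        _ ≤ _ := by gcongr
  have hq : ∀ x y : E, ‖x‖ = 1 → ‖y‖ = 1 → ‖qf y - qf x‖ ≤ K * ‖y - x‖ := by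
    intro x y hx hy
    rcases le_or_gt ‖y - x‖ r₂ with h | h
    · refine (H₂ x hx.ge hx.le y h).trans ?_
      gcongr
    · have h1 : ‖qf y - qf x‖ ≤ 2 * B := by
        refine (norm_sub_le (qf y) (qf x)).trans ?_
        have := hB x hx.ge hx.le
        have := hB y hy.ge hy.le
        linarith
      have h2 : 2 * B ≤ 2 * B / r₂ * ‖y - x‖ := by
        rw [div_mul_eq_mul_div, le_div_iff₀ hr₂]
        have : 0 ≤ 2 * B := by positivity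
        nlinarith
      calc ‖qf y - qf x‖ ≤ 2 * B / r₂ * ‖y - x‖ := h1.trans h2
        _ ≤ _ := by gcongr
  refine ⟨K, r, hK1, hrp, min_le_right _ _, ?_, ?_, ?_, ?_, ?_, ?_, ?_, ?_, ?_⟩
  · intro x hx
    rw [Jf_self he hs hE (ne_zero_of_norm_one hx), hx, one_pow]
  · intro x hx v
    have h1 := (Jf x).le_opNorm v
    rw [Real.norm_eq_abs] at h1
    have h2 := norm_Jf_le hx
    calc |Jf x v| ≤ ‖Jf x‖ * ‖v‖ := h1
      _ ≤ 1 * ‖v‖ := by gcongr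
      _ = _ := one_mul _
  · intro x y hx hy v
    have h1 := (Jf y - Jf x).le_opNorm v
    rw [Real.norm_eq_abs, sub_apply] at h1
    calc |Jf y v - Jf x v| ≤ ‖Jf y - Jf x‖ * ‖v‖ := h1
      _ ≤ _ := by gcongr; exact hJ x y hx hy
  · intro x hx h hh v
    have h1 : ‖Jf (x + h) - Jf x - qf x h‖ ≤ L₂ * ‖h‖ ^ 2 := by
      apply taylor_one (f := Jf) (f' := qf) (r := r) hL₂ _ _ h hh
      · intro y hy
        exact hasFDerivAt_Jf he hs hE (hne x y hx hy)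
      · intro y hy
        exact H₂ x hx.ge hx.le y (hy.trans hr2)
    have h2 := (Jf (x + h) - Jf x - qf x h).le_opNorm v
    rw [Real.norm_eq_abs] at h2
    have e1 : (Jf (x + h) - Jf x - qf x h) v = Jf (x + h) v - Jf x v - qf x h v := rfl
    rw [e1] at h2
    calc |Jf (x + h) v - Jf x v - qf x h v| ≤ ‖Jf (x + h) - Jf x - qf x h‖ * ‖v‖ := h2
      _ ≤ (L₂ * ‖h‖ ^ 2) * ‖v‖ := by gcongr
      _ ≤ _ := by gcongr
  · intro x hx v
    rw [qf_self he hs hE (ne_zero_of_norm_one hx)]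
  · intro x hx u v
    exact qf_symm he hs hE (ne_zero_of_norm_one hx) u v
  · intro x hx u v
    have h1 := (qf x).le_opNorm₂ u v
    rw [Real.norm_eq_abs] at h1
    have h2 := hB x hx.ge hx.le
    calc |qf x u v| ≤ ‖qf x‖ * ‖u‖ * ‖v‖ := h1
      _ ≤ _ := by gcongr; linarith
  · intro x y hx hy u v
    have h1 := (qf y - qf x).le_opNorm₂ u v
    rw [Real.norm_eq_abs] at h1
    have e1 : (qf y - qf x) u v = qf y u v - qf x u v := rfl
    rw [e1] at h1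
    calc |qf y u v - qf x u v| ≤ ‖qf y - qf x‖ * ‖u‖ * ‖v‖ := h1
      _ ≤ _ := by gcongr; exact hq x y hx hy
  · intro x hx h hh
    have h1 : ‖Nf (x + h) - Nf x - Jf x h‖ ≤ L₁ * ‖h‖ ^ 2 := by
      apply taylor_one (f := Nf) (f' := Jf) (r := r) hL₁ _ _ h hh
      · intro y hy
        exact hasFDerivAt_Nf he hs hE (hne x y hx hy)
      · intro y hy
        exact H₁ x hx.ge hx.le y (hy.trans hr1)
    rw [Real.norm_eq_abs] at h1
    have h2 := (abs_le.1 h1).2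
    unfold Nf at h2
    rw [hx] at h2
    have h3 : L₁ * ‖h‖ ^ 2 ≤ K * ‖h‖ ^ 2 := by gcongr
    set a : ℝ := Jf x h + K * ‖h‖ ^ 2 with ha
    have h4 : ‖x + h‖ ^ 2 ≤ 1 + 2 * a := by
      rw [ha]; linarith
    have h5 : ‖x + h‖ ^ 2 ≤ (1 + a) ^ 2 := by nlinarith [sq_nonneg a]
    have h6 : -1 ≤ a := by
      have := sq_nonneg ‖x + h‖
      linarith
    have h7 := abs_le_of_sq_le_sq h5 (by linarith)
    rw [abs_norm] at h7
    linarith

end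

end Pool.Agent.Helper47.Rot
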