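import Pool.Agent.Helper47.Rot.Geo

/-!
Numerical differentiation along the orbit of an isometry close to the identity.
-/

namespace Pool.Agent.Helper47.Rot

open Finset Polynomial

universe u

/-- numerical differentiation at `0` with nodes `0, ..., n` -/
theorem exists_coeff (n : ℕ) : ∃ c : ℕ → ℝ, ∀ p : ℝ[X], p.natDegree ≤ n →
    p.derivative.eval 0 = ∑ k ∈ range (n + 1), c k * p.eval (k : ℝ) := by
  classical
  refine ⟨fun k => (Lagrange.basis (range (n + 1)) (fun i : ℕ => (i : ℝ)) k).derivative.eval 0,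
    fun p hp => ?_⟩
  have hinj : Set.InjOn (fun i : ℕ => (i : ℝ)) (range (n + 1) : Set ℕ) := Nat.cast_injective.injOn
  have hdeg : p.degree < #(range (n + 1)) := by
    rw [card_range]
    exact lt_of_le_of_lt (degree_le_of_natDegree_le hp) (by exact_mod_cast Nat.lt_succ_self n)
  conv_lhs => rw [Lagrange.eq_interpolate hinj hdeg, Lagrange.interpolate_apply]
  rw [derivative_sum, eval_finsetSum]
  apply sum_congr rfl
  intro k _
  rw [derivative_C_mul, eval_C_mul, mul_comm]

/-- Newton polynomials -/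
noncomputable def nw (r : ℕ) : ℝ[X] := C ((r.factorial : ℝ)⁻¹) * descPochhammer ℝ r

theorem nw_natDegree (r : ℕ) : (nw r).natDegree ≤ r := by
  unfold nw
  refine (natDegree_C_mul_le _ _).trans ?_
  rw [descPochhammer_natDegree]

theorem nw_eval (r k : ℕ) : (nw r).eval (k : ℝ) = (k.choose r : ℝ) := by
  unfold nw
  rw [eval_C_mul, descPochhammer_eval_eq_descFactorial, Nat.descFactorial_eq_factorial_mul_choose]
  push_cast
  rw [← mul_assoc, inv_mul_cancel₀ (by exact_mod_cast Nat.factorial_ne_zero r), one_mul]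

theorem nw_zero : nw 0 = 1 := by
  simp [nw]

section

variable {E : Type u} [NormedAddCommGroup E] [NormedSpace ℝ E]

/-- polynomial curves -/
noncomputable def pcurve (p : ℕ → ℝ[X]) (N : ℕ) (w : ℕ → E) (t : ℝ) : E :=
  ∑ r ∈ range N, (p r).eval t • w r

theorem hasDerivAt_pcurve (p : ℕ → ℝ[X]) (N : ℕ) (w : ℕ → E) (t : ℝ) :
    HasDerivAt (pcurve p N w) (pcurve (fun r => derivative (p r)) N w t) t := by
  unfold pcurve
  apply HasDerivAt.fun_sum
  intro r _
  exact ((p r).hasDerivAt t).smul_const (w r)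

theorem iteratedDeriv_pcurve (p : ℕ → ℝ[X]) (N : ℕ) (w : ℕ → E) (i : ℕ) :
    iteratedDeriv i (pcurve p N w) = pcurve (fun r => derivative^[i] (p r)) N w := by
  induction i with
  | zero =>
    rw [iteratedDeriv_zero]
    rfl
  | succ i ih =>
    rw [iteratedDeriv_succ, ih]
    funext t
    rw [(hasDerivAt_pcurve _ N w t).deriv]
    simp only [Function.iterate_succ_apply']

theorem contDiff_pcurve (p : ℕ → ℝ[X]) (N : ℕ) (w : ℕ → E) {m : WithTop ℕ∞} :
    ContDiff ℝ m (pcurve p N w) := by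
  unfold pcurve
  apply ContDiff.sum
  intro r _
  have h : ContDiff ℝ m fun t : ℝ => (p r).eval t := by
    have := (p r).contDiff_aeval (𝕜 := ℝ) m
    simpa using this
  exact h.smul contDiff_const

theorem exists_pbound (n : ℕ) : ∃ A : ℝ, 1 ≤ A ∧ ∀ (w : ℕ → E) (b : ℝ), 0 ≤ b → b ≤ 1 →
    (∀ r, ‖w r‖ ≤ b ^ r) → ∀ i, i ≤ n + 1 → ∀ t ∈ Set.Icc (0 : ℝ) n,
      ‖pcurve (fun r => derivative^[i] (nw r)) (n + 1) w t‖ ≤ A * b ^ i ∧
      (i = 0 → ‖pcurve nw (n + 1) w t - w 0‖ ≤ A * b) := by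
  have h : ∀ p : ℝ[X], ∃ A : ℝ, 0 ≤ A ∧ ∀ t ∈ Set.Icc (0 : ℝ) n, |p.eval t| ≤ A := by
    intro p
    obtain ⟨A, hA⟩ := isCompact_Icc.exists_bound_of_continuousOn (s := Set.Icc (0 : ℝ) n)
      (f := fun t => p.eval t) p.continuous.continuousOn
    exact ⟨|A|, abs_nonneg _, fun t ht => (hA t ht).trans (le_abs_self A)⟩
  choose A hA0 hA using h
  set S : ℝ := ∑ i ∈ range (n + 2), ∑ r ∈ range (n + 1), A (derivative^[i] (nw r)) with hS
  have hS0 : 0 ≤ S := sum_nonneg fun i _ => sum_nonneg fun r _ => hA0 _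
  refine ⟨1 + S, by linarith, ?_⟩
  intro w b hb0 hb1 hw i hi t ht
  have hinner : ∀ i, i ≤ n + 1 → ∑ r ∈ range (n + 1), A (derivative^[i] (nw r)) ≤ S := by
    intro i hi
    exact single_le_sum (f := fun i => ∑ r ∈ range (n + 1), A (derivative^[i] (nw r)))
      (fun i _ => sum_nonneg fun r _ => hA0 _) (mem_range.2 (by omega))
  constructor
  · unfold pcurve
    refine (norm_sum_le _ _).trans ?_
    have h1 : ∀ r ∈ range (n + 1), ‖(derivative^[i] (nw r)).eval t • w r‖
        ≤ A (derivative^[i] (nw r)) * b ^ i := by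
      intro r _
      rcases lt_or_ge r i with h2 | h2
      · rw [iterate_derivative_eq_zero (lt_of_le_of_lt (nw_natDegree r) h2)]
        simp only [eval_zero, zero_smul, norm_zero]
        exact mul_nonneg (hA0 _) (by positivity)
      · rw [norm_smul, Real.norm_eq_abs]
        have h3 : ‖w r‖ ≤ b ^ i := (hw r).trans (pow_le_pow_of_le_one hb0 hb1 h2)
        exact mul_le_mul (hA _ t ht) h3 (norm_nonneg _) (hA0 _)
    refine (sum_le_sum h1).trans ?_
    rw [← sum_mul]
    gcongr
    linarith [hinner i hi]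
  · rintro rfl
    have e1 : pcurve nw (n + 1) w t - w 0 = ∑ r ∈ range n, (nw (r + 1)).eval t • w (r + 1) := by
      unfold pcurve
      rw [sum_range_succ', nw_zero]
      simp
    rw [e1]
    refine (norm_sum_le _ _).trans ?_
    have h1 : ∀ r ∈ range n, ‖(nw (r + 1)).eval t • w (r + 1)‖ ≤ A (nw (r + 1)) * b := by
      intro r _
      rw [norm_smul, Real.norm_eq_abs]
      have h3 : ‖w (r + 1)‖ ≤ b := by
        refine (hw _).trans ?_
        calc b ^ (r + 1) ≤ b ^ 1 := pow_le_pow_of_le_one hb0 hb1 (by omega)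
          _ = b := pow_one b
      exact mul_le_mul (hA _ t ht) h3 (norm_nonneg _) (hA0 _)
    refine (sum_le_sum h1).trans ?_
    rw [← sum_mul]
    gcongr
    have h4 : ∑ r ∈ range n, A (nw (r + 1)) ≤ ∑ r ∈ range (n + 1), A (nw r) := by
      rw [sum_range_succ' (fun r => A (nw r))]
      linarith [hA0 (nw 0)]
    have h5 := hinner 0 (by omega)
    simp only [Function.iterate_zero, id_eq] at h5
    linarith

/-- the powers of an isometry from the powers of its difference with the identity -/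
theorem pow_apply_eq (T : E ≃ₗᵢ[ℝ] E) (x : E) (n k : ℕ) (hk : k ≤ n) :
    pcurve nw (n + 1) (fun r => (((T.toContinuousLinearEquiv : E →L[ℝ] E) - 1) ^ r) x) (k : ℝ)
      = (T ^ k) x := by
  set A : E →L[ℝ] E := (T.toContinuousLinearEquiv : E →L[ℝ] E) with hA
  have h1 : ∀ k : ℕ, (A ^ k) x = (T ^ k) x := by
    intro k
    induction k with
    | zero => simp
    | succ k ih =>
      rw [pow_succ', pow_succ', mul_apply_eq_comp, ih]
      rfl
  rw [← h1]
  have h2 : A ^ k = ∑ r ∈ range (k + 1), (k.choose r : ℝ) • (A - 1) ^ r := by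
    have h3 : A = (A - 1) + 1 := by abel
    conv_lhs => rw [h3, (Commute.one_right (A - 1)).add_pow]
    apply sum_congr rfl
    intro r _
    rw [one_pow, mul_one, ← Nat.cast_commute, ← nsmul_eq_mul, Nat.cast_smul_eq_nsmul]
  rw [h2]
  unfold pcurve
  rw [_root_.sum_apply]
  have h4 : ∑ r ∈ range (n + 1), (nw r).eval (k : ℝ) • ((A - 1) ^ r) x
      = ∑ r ∈ range (k + 1), (nw r).eval (k : ℝ) • ((A - 1) ^ r) x := by
    symm
    apply sum_subset
    · intro r hr
      rw [mem_range] at hr ⊢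
      omega
    · intro r _ hr
      rw [mem_range, not_lt] at hr
      rw [nw_eval, Nat.choose_eq_zero_of_lt (by omega)]
      simp
  rw [h4]
  apply sum_congr rfl
  intro r _
  rw [nw_eval]
  rfl

end

end Pool.Agent.Helper47.Rot
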