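import Pool.Agent.Helper47.Rot.Interp

/-!
The truncated logarithm of a near-identity isometry is almost skew.
-/

namespace Pool.Agent.Helper47.Rot

open Finset Polynomial

universe u

section

variable {E : Type u} [NormedAddCommGroup E] [NormedSpace ℝ E]

theorem Nf_smooth {e : E} (he : ‖e‖ = 1) {s : ℝ} (hs : 0 < s) (hE : SimMicro E s) (n : ℕ) :
    ContDiffOn ℝ n (Nf : E → ℝ) {0}ᶜ ∧
      ∃ B, 0 ≤ B ∧ ∀ x : E, (2 : ℝ)⁻¹ ≤ ‖x‖ → ‖x‖ ≤ 2 → ‖iteratedFDeriv ℝ n (Nf : E → ℝ) x‖ ≤ B := by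
  cases n with
  | zero =>
    constructor
    · rw [Nat.cast_zero, contDiffOn_zero]
      intro x hx
      exact (hasFDerivAt_Nf he hs hE hx).continuousAt.continuousWithinAt
    · refine ⟨2, by norm_num, fun x h1 h2 => ?_⟩
      rw [norm_iteratedFDeriv_zero]
      unfold Nf
      rw [Real.norm_of_nonneg (by positivity)]
      nlinarith [norm_nonneg x]
  | succ n =>
    obtain ⟨h1, h2⟩ := Equi.contDiffOn hs hE n (equi_Jf he hs hE)
    constructor
    · rw [Nat.cast_succ, contDiffOn_succ_iff_fderiv_of_isOpen isOpen_compl_singleton]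
      refine ⟨fun x hx => (hasFDerivAt_Nf he hs hE hx).differentiableAt.differentiableWithinAt,
        ?_, h1⟩
      intro h3
      simp at h3
    · obtain ⟨B, hB⟩ := h2 2 (by norm_num)
      refine ⟨|B|, abs_nonneg _, fun x h3 h4 => ?_⟩
      rw [← norm_iteratedFDeriv_fderiv]
      exact (hB x h3 h4).trans (le_abs_self B)

theorem exists_logbound {e : E} (he : ‖e‖ = 1) {s : ℝ} (hs : 0 < s) (hE : SimMicro E s) (n : ℕ)
    (hn : 1 ≤ n) :
    ∃ c : ℕ → ℝ, (∑ k ∈ range (n + 1), c k * (k : ℝ) = 1) ∧ ∃ K b₀ : ℝ, 0 ≤ K ∧ 0 < b₀ ∧ b₀ ≤ 1 ∧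
      ∀ (T : E ≃ₗᵢ[ℝ] E) (b : ℝ) (x : E), ‖x‖ = 1 → 0 ≤ b → b ≤ b₀ →
        (∀ z, ‖T z - z‖ ≤ b * ‖z‖) →
        |∑ k ∈ range (n + 1), c k * Jf x ((T ^ k) x)| ≤ K * b ^ (n + 1) := by
  obtain ⟨c, hc⟩ := exists_coeff n
  have hc0 : ∑ k ∈ range (n + 1), c k = 0 := by
    have := hc 1 (by simp)
    simpa using this.symm
  have hc1 : ∑ k ∈ range (n + 1), c k * (k : ℝ) = 1 := by
    have := hc X (by simpa using hn)
    simpa using this.symm
  refine ⟨c, hc1, ?_⟩
  obtain ⟨A, hA1, hA⟩ := exists_pbound (E := E) n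
  have hsm := fun i => Nf_smooth he hs hE i
  choose hsm1 B hB0 hB using hsm
  set Cs : ℝ := ∑ i ∈ range (n + 2), B i with hCs
  have hCs0 : 0 ≤ Cs := sum_nonneg fun i _ => hB0 i
  have hBC : ∀ i, i ≤ n + 1 → B i ≤ Cs := fun i hi =>
    single_le_sum (f := B) (fun i _ => hB0 i) (mem_range.2 (by omega))
  set K : ℝ := (∑ k ∈ range (n + 1), |c k|) *
    (((n + 1).factorial * Cs * A ^ (n + 1)) * (n : ℝ) ^ (n + 1) / n.factorial) with hK
  have hK0 : 0 ≤ K := by
    rw [hK]
    have : 0 ≤ ∑ k ∈ range (n + 1), |c k| := sum_nonneg fun i _ => abs_nonneg _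
    positivity
  have hA0 : 0 < A := by linarith
  refine ⟨K, 1 / (2 * A), hK0, by positivity, ?_, ?_⟩
  · rw [div_le_one (by positivity)]
    linarith
  intro T b x hx hb0 hb hTz
  have hb1 : b ≤ 1 := by
    refine hb.trans ?_
    rw [div_le_one (by positivity)]
    linarith
  have hAb : A * b ≤ 1 / 2 := by
    calc A * b ≤ A * (1 / (2 * A)) := by gcongr
      _ = 1 / 2 := by field_simp
  set D : E →L[ℝ] E := (T.toContinuousLinearEquiv : E →L[ℝ] E) - 1 with hD
  set w : ℕ → E := fun r => (D ^ r) x with hw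
  have hDz : ∀ z, ‖D z‖ ≤ b * ‖z‖ := hTz
  have hwr : ∀ r, ‖w r‖ ≤ b ^ r := by
    intro r
    induction r with
    | zero => simp [hw, hx]
    | succ r ih =>
      have e1 : w (r + 1) = D (w r) := by
        simp only [hw, pow_succ', mul_apply_eq_comp]
      rw [e1, pow_succ']
      refine (hDz _).trans ?_
      gcongr
  have hw0 : w 0 = x := by simp [hw]
  set P : ℝ → E := pcurve nw (n + 1) w with hP
  have hPk : ∀ k, k ≤ n → P (k : ℝ) = (T ^ k) x := fun k hk => pow_apply_eq T x n k hk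
  have hPann : ∀ t ∈ Set.Icc (0 : ℝ) n, (2 : ℝ)⁻¹ ≤ ‖P t‖ ∧ ‖P t‖ ≤ 2 := by
    intro t ht
    have h1 := (hA w b hb0 hb1 hwr 0 (by omega) t ht).2 rfl
    rw [hw0] at h1
    have h2 : ‖P t - x‖ ≤ 1 / 2 := h1.trans hAb
    have h3 : ‖x‖ - ‖P t‖ ≤ ‖P t - x‖ := by
      rw [norm_sub_rev]
      exact norm_sub_norm_le _ _
    have h4 : ‖P t‖ - ‖x‖ ≤ ‖P t - x‖ := norm_sub_norm_le _ _
    constructor
    · norm_num
      linarith
    · linarith
  have hn0 : (0 : ℝ) < n := by exact_mod_cast hn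
  set I : Set ℝ := Set.Icc (0 : ℝ) n with hI
  have hIu : UniqueDiffOn ℝ I := uniqueDiffOn_Icc hn0
  set φ : ℝ → ℝ := (Nf : E → ℝ) ∘ P with hφ
  have hmaps : Set.MapsTo P I ({0}ᶜ : Set E) := by
    intro t ht
    have h1 := (hPann t ht).1
    intro h2
    rw [Set.mem_singleton_iff] at h2
    rw [h2, norm_zero] at h1
    norm_num at h1
  have hNcd : ContDiffOn ℝ ((n + 1 : ℕ) : WithTop ℕ∞) (Nf : E → ℝ) {0}ᶜ := hsm1 (n + 1)
  have hPcd : ContDiffOn ℝ ((n + 1 : ℕ) : WithTop ℕ∞) P I := (contDiff_pcurve _ _ _).contDiffOn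
  have hφcd : ContDiffOn ℝ ((n + 1 : ℕ) : WithTop ℕ∞) φ I := hNcd.comp hPcd hmaps
  set M : ℝ := (n + 1).factorial * Cs * (A * b) ^ (n + 1) with hM
  have hderiv : ∀ y ∈ I, ‖iteratedDerivWithin (n + 1) φ I y‖ ≤ M := by
    intro y hy
    rw [← norm_iteratedFDerivWithin_eq_norm_iteratedDerivWithin]
    apply norm_iteratedFDerivWithin_comp_le hNcd hPcd le_rfl isOpen_compl_singleton.uniqueDiffOn
      hIu hmaps hy
    · intro i hi
      rw [iteratedFDerivWithin_of_isOpen i isOpen_compl_singleton (hmaps hy)]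
      exact (hB i (P y) (hPann y hy).1 (hPann y hy).2).trans (hBC i hi)
    · intro i hi1 hi
      rw [norm_iteratedFDerivWithin_eq_norm_iteratedDerivWithin,
        iteratedDerivWithin_eq_iteratedDeriv hIu (contDiff_pcurve _ _ _).contDiffAt hy,
        iteratedDeriv_pcurve]
      refine (hA w b hb0 hb1 hwr i hi y hy).1.trans ?_
      rw [mul_pow]
      gcongr
      exact le_self_pow₀ hA1 (by omega)
  have htay : ∀ k, k ≤ n → |φ (k : ℝ) - taylorWithinEval φ n I 0 (k : ℝ)|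
      ≤ M * (n : ℝ) ^ (n + 1) / n.factorial := by
    intro k hk
    have hkn : (k : ℝ) ≤ n := by exact_mod_cast hk
    have h1 := taylor_mean_remainder_bound (f := φ) (a := 0) (b := n) (C := M) (x := k) (n := n)
      hn0.le (by exact_mod_cast hφcd) ⟨by positivity, hkn⟩ hderiv
    rw [Real.norm_eq_abs, sub_zero] at h1
    refine h1.trans ?_
    have hM0 : 0 ≤ M := (norm_nonneg _).trans (hderiv 0 ⟨le_rfl, hn0.le⟩)
    gcongr
  -- the Taylor polynomial
  set a : ℕ → ℝ := fun j => ((j.factorial : ℝ))⁻¹ * iteratedDerivWithin j φ I 0 with ha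
  set tp : ℝ[X] := ∑ j ∈ range (n + 1), C (a j) * X ^ j with htp
  have htp_eval : ∀ t : ℝ, tp.eval t = taylorWithinEval φ n I 0 t := by
    intro t
    rw [taylor_within_apply, htp, eval_finsetSum]
    apply sum_congr rfl
    intro j _
    rw [eval_C_mul, eval_pow, eval_X, sub_zero, ha, smul_eq_mul]
    ring
  have htp_deg : tp.natDegree ≤ n := by
    rw [htp]
    apply natDegree_sum_le_of_forall_le
    intro j hj
    refine (natDegree_C_mul_X_pow_le _ _).trans ?_
    rw [mem_range] at hj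
    omega
  have htp_der : tp.derivative.eval 0 = iteratedDerivWithin 1 φ I 0 := by
    rw [← coeff_zero_eq_eval_zero, coeff_derivative, htp, finsetSum_coeff]
    simp only [coeff_C_mul_X_pow]
    rw [sum_ite_eq (range (n + 1)) (0 + 1) a, if_pos (mem_range.2 (by omega)), ha]
    simp
  have hkey := hc tp htp_deg
  rw [htp_der, iteratedDerivWithin_one] at hkey
  -- the derivative of `φ` at zero
  have hP0 : P 0 = x := by
    have := hPk 0 (by omega)
    simpa using this
  have hPd : HasDerivAt P (∑ k ∈ range (n + 1), c k • (T ^ k) x) 0 := by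
    have h1 := hasDerivAt_pcurve nw (n + 1) w 0
    have h2 : pcurve (fun r => derivative (nw r)) (n + 1) w 0
        = ∑ k ∈ range (n + 1), c k • (T ^ k) x := by
      unfold pcurve
      have h3 : ∀ r ∈ range (n + 1), (derivative (nw r)).eval 0 • w r
          = ∑ k ∈ range (n + 1), (c k * (nw r).eval (k : ℝ)) • w r := by
        intro r hr
        rw [hc (nw r) ((nw_natDegree r).trans (by rw [mem_range] at hr; omega)), sum_smul]
      rw [sum_congr rfl h3, sum_comm]
      apply sum_congr rfl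
      intro k hk
      rw [← hPk k (by rw [mem_range] at hk; omega), hP]
      unfold pcurve
      rw [smul_sum]
      apply sum_congr rfl
      intro r _
      rw [mul_smul]
    rw [← h2]
    exact h1
  have hφd : HasDerivAt φ (Jf x (∑ k ∈ range (n + 1), c k • (T ^ k) x)) 0 := by
    have h1 : HasFDerivAt (Nf : E → ℝ) (Jf x) (P 0) := by
      rw [hP0]
      exact hasFDerivAt_Nf he hs hE (ne_zero_of_norm_one hx)
    exact h1.comp_hasDerivAt 0 hPd
  have h0I : (0 : ℝ) ∈ I := ⟨le_rfl, hn0.le⟩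
  rw [hφd.hasDerivWithinAt.derivWithin (hIu 0 h0I)] at hkey
  have e1 : Jf x (∑ k ∈ range (n + 1), c k • (T ^ k) x)
      = ∑ k ∈ range (n + 1), c k * Jf x ((T ^ k) x) := by
    rw [map_sum]
    simp only [map_smul, smul_eq_mul]
  rw [← e1, hkey]
  have hφk : ∀ k, k ≤ n → φ (k : ℝ) = 1 / 2 := by
    intro k hk
    rw [hφ, Function.comp_apply, hPk k hk]
    unfold Nf
    rw [LinearIsometryEquiv.norm_map, hx]
    norm_num
  have e2 : ∑ k ∈ range (n + 1), c k * tp.eval (k : ℝ)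
      = ∑ k ∈ range (n + 1), c k * (tp.eval (k : ℝ) - 1 / 2) := by
    simp only [mul_sub, sum_sub_distrib]
    rw [← sum_mul, hc0]
    ring
  rw [e2]
  refine (abs_sum_le_sum_abs _ _).trans ?_
  have h5 : ∀ k ∈ range (n + 1), |c k * (tp.eval (k : ℝ) - 1 / 2)|
      ≤ |c k| * (M * (n : ℝ) ^ (n + 1) / n.factorial) := by
    intro k hk
    have hkn : k ≤ n := by rw [mem_range] at hk; omega
    rw [abs_mul]
    gcongr
    have h6 := htay k hkn
    rw [hφk k hkn, abs_sub_comm, ← htp_eval] at h6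
    exact h6
  refine (sum_le_sum h5).trans (le_of_eq ?_)
  rw [← sum_mul, hK, hM, mul_pow]
  ring

end

end Pool.Agent.Helper47.Rot
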