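import Pool.Agent.Helper47.Rot.Log

/-!
The asymmetry of the duality map and its near-maximal pairs.
-/

namespace Pool.Agent.Helper47.Rot

open Finset

universe u

section

variable {E : Type u} [NormedAddCommGroup E] [NormedSpace ℝ E]

/-- the asymmetry of the duality map -/
noncomputable def Fa (x y : E) : ℝ := Jf x y - Jf y x

theorem Fa_map (T : E ≃ₗᵢ[ℝ] E) (x y : E) : Fa (T x) (T y) = Fa x y := by
  unfold Fa
  rw [Jf_map, Jf_map]

variable {K r : ℝ}

theorem Fa_le_norm {Ψ : ℝ} (hmax : ∀ x y : E, ‖x‖ = 1 → ‖y‖ = 1 → Fa x y ≤ Ψ)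
    {x z : E} (hx : ‖x‖ = 1) (hz : z ≠ 0) : Jf x z - Jf z x ≤ Ψ * ‖z‖ := by
  have hz0 : 0 < ‖z‖ := norm_pos_iff.2 hz
  have h1 := hmax x (‖z‖⁻¹ • z) hx (by rw [norm_smul, norm_inv, norm_norm]; field_simp)
  unfold Fa at h1
  rw [Jf_smul (by positivity), map_smul, smul_apply, smul_eq_mul, smul_eq_mul, ← mul_sub] at h1
  rw [inv_mul_le_iff₀ hz0] at h1
  linarith

/-- the first order condition at a near-maximal pair -/
theorem first_order (G : Geo E K r) {Ψ ε τ : ℝ} (hΨ0 : 0 ≤ Ψ) (hΨ2 : Ψ ≤ 2)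
    (hmax : ∀ x y : E, ‖x‖ = 1 → ‖y‖ = 1 → Fa x y ≤ Ψ) {x y : E} (hx : ‖x‖ = 1) (hy : ‖y‖ = 1)
    (hF : Ψ - ε ≤ Fa x y) (hτ : 0 < τ) (hτr : τ ≤ r) (v : E) :
    |Jf x v - qf y v x - Ψ * Jf y v| ≤ (ε / τ + 3 * K * τ) * ‖v‖ := by
  have hK := G.K1
  -- one sided, unit vectors
  have one : ∀ v : E, ‖v‖ = 1 → Jf x v - qf y v x - Ψ * Jf y v ≤ ε / τ + 3 * K * τ := by
    intro v hv
    have hh : ‖τ • v‖ = τ := by rw [norm_smul, hv, mul_one, Real.norm_of_nonneg hτ.le]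
    have hne : y + τ • v ≠ 0 := by
      intro h0
      have h1 : y = -(τ • v) := eq_neg_of_add_eq_zero_left h0
      have h2 : ‖y‖ = τ := by rw [h1, norm_neg, hh]
      have := G.r1
      linarith
    have h1 := Fa_le_norm hmax hx hne
    have h2 := G.nT y hy (τ • v) (by rw [hh]; exact hτr)
    have h3 := (abs_le.1 (G.jT y hy (τ • v) (by rw [hh]; exact hτr) x)).2
    rw [hh] at h2 h3
    rw [hx, mul_one] at h3
    rw [map_add, map_smul, smul_eq_mul] at h1
    rw [map_smul, smul_eq_mul] at h2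
    rw [map_smul, smul_apply, smul_eq_mul] at h3
    unfold Fa at hF
    have h4 : Ψ * ‖y + τ • v‖ ≤ Ψ * (1 + τ * Jf y v + K * τ ^ 2) := by gcongr
    have h5 : Ψ * (K * τ ^ 2) ≤ 2 * (K * τ ^ 2) := by gcongr
    have h6 : τ * (Jf x v - qf y v x - Ψ * Jf y v) ≤ ε + 3 * K * τ ^ 2 := by
      nlinarith
    have h7 : τ * (ε / τ + 3 * K * τ) = ε + 3 * K * τ ^ 2 := by
      field_simp
    rw [← h7] at h6
    exact le_of_mul_le_mul_left h6 hτ
  have two : ∀ v : E, ‖v‖ = 1 → |Jf x v - qf y v x - Ψ * Jf y v| ≤ ε / τ + 3 * K * τ := by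
    intro v hv
    rw [abs_le]
    constructor
    · have h1 := one (-v) (by rw [norm_neg, hv])
      simp only [map_neg, neg_apply] at h1
      linarith
    · exact one v hv
  rcases eq_or_ne v 0 with h0 | h0
  · rw [h0]; simp
  · have hv0 : 0 < ‖v‖ := norm_pos_iff.2 h0
    have h1 := two (‖v‖⁻¹ • v) (by rw [norm_smul, norm_inv, norm_norm]; field_simp)
    rw [map_smul, map_smul, map_smul, smul_apply, smul_eq_mul, smul_eq_mul, smul_eq_mul] at h1
    have e1 : ‖v‖⁻¹ * Jf x v - ‖v‖⁻¹ * qf y v x - Ψ * (‖v‖⁻¹ * Jf y v)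
        = ‖v‖⁻¹ * (Jf x v - qf y v x - Ψ * Jf y v) := by ring
    rw [e1, abs_mul, abs_of_pos (by positivity : 0 < ‖v‖⁻¹), inv_mul_le_iff₀ hv0] at h1
    linarith

/-- the lower bound for the asymmetry along a short displacement -/
theorem lower_bound (G : Geo E K r) {Ψ ε η t b : ℝ} (hΨ0 : 0 ≤ Ψ) (hΨ2 : Ψ ≤ 2)
    (hmax : ∀ x y : E, ‖x‖ = 1 → ‖y‖ = 1 → Fa x y ≤ Ψ) {x y : E} (hx : ‖x‖ = 1) (hy : ‖y‖ = 1)
    (hF : Ψ - ε ≤ Fa x y) (hε : 0 ≤ ε) (hη : 0 ≤ η) (ht : 0 < t) (ht1 : t ≤ 1) (htr : 3 * t ≤ r)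
    (htK : 4 * K * t ≤ 1)
    (hb0 : 0 ≤ b) (hb1 : b ≤ 1)
    (hE1 : ∀ v : E, |Jf x v - qf y v x - Ψ * Jf y v| ≤ η * ‖v‖)
    (T : E ≃ₗᵢ[ℝ] E) (hTz : ∀ z, ‖T z - z‖ ≤ b * ‖z‖)
    (hTy : T y = ‖y + t • (x - Jf y x • y)‖⁻¹ • (y + t • (x - Jf y x • y))) :
    Ψ * (1 - Jf y x * Jf x y) * t - (43 * K ^ 2 * (t * b + t ^ 2) + 4 * η + 5 * (ε / t))
      ≤ Fa (T x) x := by
  have hK := G.K1
  have hK0 : 0 ≤ K := by linarith
  set α : ℝ := Jf y x with hα
  set β : ℝ := Jf x y with hβ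
  set u : E := x - α • y with hu
  set x' : E := T x with hx'
  set y' : E := T y with hy'
  set p : E := y' - y with hp
  set w : E := x' - x with hw
  have hx'1 : ‖x'‖ = 1 := by rw [hx', LinearIsometryEquiv.norm_map, hx]
  have hxy' : Jf x' y' = β := Jf_map T x y
  have hyx' : Jf y' x' = α := Jf_map T y x
  have hwT : ‖w‖ ≤ b * ‖x‖ := hTz x
  have hy'1 : ‖y'‖ = 1 := by rw [hy', LinearIsometryEquiv.norm_map, hy]
  have hFxy : Fa x y = β - α := rfl
  have hX : Fa x' x = Jf x' x - Jf x x' := rfl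
  clear_value α β u p w x' y'
  have hα1 : |α| ≤ 1 := by
    have := G.jle y hy x
    rwa [hx, ← hα] at this
  have hβ1 : |β| ≤ 1 := by
    have := G.jle x hx y
    rwa [hy, ← hβ] at this
  have hα2 := abs_le.1 hα1
  have hβ2 := abs_le.1 hβ1
  have hF2 := hmax x y hx hy
  rw [hFxy] at hF hF2
  have hun : ‖u‖ ≤ 2 := by
    rw [hu]
    refine (norm_sub_le _ _).trans ?_
    rw [norm_smul, hx, hy, mul_one, Real.norm_eq_abs]
    linarith
  have hJyu : Jf y u = 0 := by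
    rw [hu, map_sub, map_smul, G.jself y hy, smul_eq_mul, mul_one, ← hα, sub_self]
  set κ : ℝ := 1 - α * β with hκ
  have hJxu : Jf x u = κ := by
    rw [hu, map_sub, map_smul, G.jself x hx, smul_eq_mul, ← hβ]
  clear_value κ
  have hw_n : ‖w‖ ≤ b := by
    rwa [hx, mul_one] at hwT
  have hx'x : ‖x' - x‖ ≤ b := by rw [← hw]; exact hw_n
  -- the displacement of `y`
  have htu : ‖t • u‖ ≤ 2 * t := by
    rw [norm_smul, Real.norm_of_nonneg ht.le]
    nlinarith
  set l : ℝ := ‖y + t • u‖ with hl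
  have hl1 : 1 ≤ l := by
    have h1 := G.jle y hy (y + t • u)
    rw [map_add, map_smul, hJyu, G.jself y hy] at h1
    simpa using (le_abs_self _).trans h1
  have hl2 : l ≤ 1 + 4 * K * t ^ 2 := by
    have h1 := G.nT y hy (t • u) (by linarith)
    rw [map_smul, hJyu, smul_zero, add_zero] at h1
    have h2 : ‖t • u‖ ^ 2 ≤ (2 * t) ^ 2 := by gcongr
    nlinarith
  have hptu : ‖p - t • u‖ ≤ 4 * K * t ^ 2 := by
    have e1 : p - t • u = (l⁻¹ - 1) • (y + t • u) := by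
      rw [hp, hTy, sub_smul, one_smul]
      abel
    rw [e1, norm_smul, ← hl, Real.norm_eq_abs, abs_sub_comm,
      abs_of_nonneg (sub_nonneg.2 (inv_le_one_of_one_le₀ hl1))]
    have : (1 - l⁻¹) * l = l - 1 := by field_simp
    rw [this]
    linarith
  set δ : ℝ := 4 * K * t ^ 2 with hδ
  clear_value δ
  have hδ0 : 0 ≤ δ := by rw [hδ]; positivity
  have hδt : δ ≤ t := by
    have h1 : (4 * K * t) * t ≤ 1 * t := by gcongr
    rw [hδ]; linarith
  have hp_n : ‖p‖ ≤ 3 * t := by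
    have e1 : p = (p - t • u) + t • u := by abel
    rw [e1]
    refine (norm_add_le _ _).trans ?_
    linarith
  have hy'y : ‖y' - y‖ ≤ 3 * t := by rw [← hp]; exact hp_n
  -- (S)
  have hS : (Jf y' w - Jf y w) ≤ (Jf x' p - Jf x p) + 2 * ε := by
    have h1 := hmax x y' hx hy'1
    have h2 := hmax x' y hx'1 hy
    unfold Fa at h1 h2
    rw [hw, hp, map_sub, map_sub, map_sub, map_sub, hxy', hyx', ← hα, ← hβ]
    linarith
  -- (2)
  have h2a : qf y p w - K * (9 * t ^ 2) * b ≤ Jf y' w - Jf y w := by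
    have h1 := G.jT y hy p (by linarith) w
    have e1 : y + p = y' := by rw [hp]; abel
    rw [e1] at h1
    have h2 := (abs_le.1 h1).1
    have h3 : K * ‖p‖ ^ 2 * ‖w‖ ≤ K * (9 * t ^ 2) * b := by
      have : ‖p‖ ^ 2 ≤ 9 * t ^ 2 := by
        calc ‖p‖ ^ 2 ≤ (3 * t) ^ 2 := by gcongr
          _ = _ := by ring
      gcongr
    linarith
  have h2b : t * qf y u w - K * δ * b ≤ qf y p w := by
    have e1 : qf y p w = t * qf y u w + qf y (p - t • u) w := by
      rw [map_sub, map_smul, sub_apply, smul_apply, smul_eq_mul]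
      ring
    have h1 := (abs_le.1 (G.qbd y hy (p - t • u) w)).1
    have h3 : K * ‖p - t • u‖ * ‖w‖ ≤ K * δ * b := by gcongr
    rw [e1]
    linarith
  -- (3)
  have h3a : Jf x w - (Ψ + α) * Jf y w - η * b ≤ qf y u w := by
    have e1 : qf y u w = qf y x w - α * Jf y w := by
      rw [hu, map_sub, map_smul, sub_apply, smul_apply, smul_eq_mul, G.qself y hy]
    have h1 := (abs_le.1 (hE1 w)).2
    rw [G.qsymm y hy w x] at h1
    have h2 : η * ‖w‖ ≤ η * b := by gcongr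
    rw [e1]
    linarith
  -- (4)
  have h4a : Jf x' p - Jf x p ≤ t * (Jf x' u - Jf x u) + K * b * δ := by
    have e1 : Jf x' p - Jf x p = t * (Jf x' u - Jf x u)
        + (Jf x' (p - t • u) - Jf x (p - t • u)) := by
      rw [map_sub, map_sub, map_smul, map_smul, smul_eq_mul, smul_eq_mul]
      ring
    have h1 := (abs_le.1 (G.jlip x x' hx hx'1 (p - t • u))).2
    have h3 : K * ‖x' - x‖ * ‖p - t • u‖ ≤ K * b * δ := by gcongr
    rw [e1]
    linarith
  -- (5)
  have h5a : Jf x' u - Jf x u = (Jf x' x - 1) + α * Jf x' p := by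
    rw [hJxu, hu, map_sub, map_smul, hp, map_sub, hxy', smul_eq_mul, hκ]
    ring
  have h5b : |Jf x' p - t * κ| ≤ 3 * K * (b * t) + 4 * K * t ^ 2 := by
    have e1 : Jf x' p - t * κ = (Jf x' p - Jf x p) + Jf x (p - t • u) := by
      rw [map_sub, map_smul, hJxu, smul_eq_mul]
      ring
    have h1 := G.jlip x x' hx hx'1 p
    have h2 := G.jle x hx (p - t • u)
    have h3 : K * ‖x' - x‖ * ‖p‖ ≤ K * b * (3 * t) := by gcongr
    rw [e1]
    refine (abs_add_le _ _).trans ?_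
    linarith
  -- (6)
  have h6a : |Jf y w + t * κ| ≤ 3 * K * (t * b) + 4 * K ^ 2 * t ^ 2 + 9 * K * t ^ 2
      + t * (η + ε) := by
    have e1 : Jf y' w = α - Jf y' x := by rw [hw, map_sub, hyx']
    have h1 := G.jlip y y' hy hy'1 w
    have h1' : K * ‖y' - y‖ * ‖w‖ ≤ K * (3 * t) * b := by gcongr
    have h2 := G.jT y hy p (by linarith) x
    have e2 : y + p = y' := by rw [hp]; abel
    rw [e2, hx, mul_one] at h2
    have h2' : K * ‖p‖ ^ 2 ≤ K * (9 * t ^ 2) := by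
      have : ‖p‖ ^ 2 ≤ 9 * t ^ 2 := by
        calc ‖p‖ ^ 2 ≤ (3 * t) ^ 2 := by gcongr
          _ = _ := by ring
      gcongr
    have e3 : qf y p x = t * qf y u x + qf y (p - t • u) x := by
      rw [map_sub, map_smul, sub_apply, smul_apply, smul_eq_mul]
      ring
    have h3 := G.qbd y hy (p - t • u) x
    rw [hx, mul_one] at h3
    have h3' : K * ‖p - t • u‖ ≤ K * δ := by gcongr
    have e4 : qf y u x = qf y x x - α * α := by
      rw [hu, map_sub, map_smul, sub_apply, smul_apply, smul_eq_mul, G.qself y hy, ← hα]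
    have h5 := hE1 x
    rw [hx, mul_one, G.jself x hx, ← hα] at h5
    have h6 : |qf y u x - κ| ≤ η + ε := by
      have e5 : qf y u x - κ = -(1 - qf y x x - Ψ * α) + α * (β - α - Ψ) := by
        rw [e4, hκ]; ring
      rw [e5]
      refine (abs_add_le _ _).trans ?_
      rw [abs_neg, abs_mul]
      have h7 : |β - α - Ψ| ≤ ε := by rw [abs_le]; constructor <;> linarith
      have h8 : |α| * |β - α - Ψ| ≤ 1 * ε := by gcongr
      linarith
    have e6 : Jf y w + t * κ = -(Jf y' w - Jf y w) - (Jf y' x - α - qf y p x)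
        - qf y (p - t • u) x - t * (qf y u x - κ) := by
      rw [e1, e3]
      ring
    have h9 : |t * (qf y u x - κ)| ≤ t * (η + ε) := by
      rw [abs_mul, abs_of_pos ht]
      gcongr
    rw [← hα] at h2
    rw [e6]
    have h10 : |-(Jf y' w - Jf y w) - (Jf y' x - α - qf y p x)
        - qf y (p - t • u) x - t * (qf y u x - κ)|
        ≤ |Jf y' w - Jf y w| + |Jf y' x - α - qf y p x| + |qf y (p - t • u) x|
          + |t * (qf y u x - κ)| := by
      refine (abs_sub _ _).trans ?_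
      refine add_le_add_left ((abs_sub _ _).trans ?_) _
      refine add_le_add_left ((abs_sub _ _).trans ?_) _
      rw [abs_neg]
    refine h10.trans ?_
    rw [hδ] at h3'
    have h11 : K * ‖y' - y‖ * ‖w‖ = K * ‖y' - y‖ * ‖w‖ := rfl
    linarith
  -- (7)
  have hJxw : Jf x w = Jf x x' - 1 := by rw [hw, map_sub, G.jself x hx]
  have h7a : t * (Jf x w - (Ψ + α) * Jf y w - (Jf x' x - 1) - α * Jf x' p)
      ≤ t * (η * b) + K * δ * b + K * b * δ + K * (9 * t ^ 2) * b + 2 * ε := by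
    have h1 : t * (Jf x w - (Ψ + α) * Jf y w - η * b) ≤ t * qf y u w := by gcongr
    have h2 : t * (Jf x' u - Jf x u) = t * ((Jf x' x - 1) + α * Jf x' p) := by rw [h5a]
    linarith
  have h7b : Jf x w - (Ψ + α) * Jf y w - (Jf x' x - 1) - α * Jf x' p
      ≤ η * b + 17 * K ^ 2 * (t * b) + 2 * (ε / t) := by
    have h1 : t * (η * b) + K * δ * b + K * b * δ + K * (9 * t ^ 2) * b + 2 * ε
        ≤ t * (η * b + 17 * K ^ 2 * (t * b) + 2 * (ε / t)) := by
      have e1 : t * (η * b + 17 * K ^ 2 * (t * b) + 2 * (ε / t))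
          = t * (η * b) + 17 * K ^ 2 * (t ^ 2 * b) + 2 * ε := by
        field_simp
      rw [e1, hδ]
      have h2 : 0 ≤ t ^ 2 * b := by positivity
      have h3 : K ≤ K ^ 2 := by rw [sq]; exact le_mul_of_one_le_left hK0 hK
      have h4 : K * (t ^ 2 * b) ≤ K ^ 2 * (t ^ 2 * b) := by gcongr
      linarith
    exact le_of_mul_le_mul_left (h7a.trans h1) ht
  -- final combination
  generalize Jf y w = A at *
  generalize Jf x' p = Bp at *
  have h8 : (Ψ + α) * (t * κ) - 3 * (3 * K * (t * b) + 4 * K ^ 2 * t ^ 2 + 9 * K * t ^ 2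
      + t * (η + ε)) ≤ -((Ψ + α) * A) := by
    have e1 : -((Ψ + α) * A) = (Ψ + α) * (t * κ) - (Ψ + α) * (A + t * κ) := by ring
    rw [e1]
    have h9 : |(Ψ + α) * (A + t * κ)| ≤ 3 * (3 * K * (t * b) + 4 * K ^ 2 * t ^ 2 + 9 * K * t ^ 2
      + t * (η + ε)) := by
      rw [abs_mul]
      have : |Ψ + α| ≤ 3 := by rw [abs_le]; constructor <;> linarith
      gcongr
    have := (abs_le.1 h9).2
    linarith
  have h10 : -(α * (t * κ)) - (3 * K * (b * t) + 4 * K * t ^ 2) ≤ -(α * Bp) := by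
    have e1 : -(α * Bp) = -(α * (t * κ)) - α * (Bp - t * κ) := by ring
    rw [e1]
    have h9 : |α * (Bp - t * κ)| ≤ 1 * (3 * K * (b * t) + 4 * K * t ^ 2) := by
      rw [abs_mul]
      gcongr
    have := (abs_le.1 h9).2
    linarith
  rw [hX]
  rw [hJxw] at h7b
  have hK2 : K ≤ K ^ 2 := by rw [sq]; exact le_mul_of_one_le_left hK0 hK
  have htb : 0 ≤ t * b := by positivity
  have ht2 : 0 ≤ t ^ 2 := by positivity
  have i1 : K * (t * b) ≤ K ^ 2 * (t * b) := by gcongr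
  have i2 : K * t ^ 2 ≤ K ^ 2 * t ^ 2 := by gcongr
  have i3 : t * η ≤ η := mul_le_of_le_one_left hη ht1
  have i4 : ε ≤ ε / t := by
    rw [le_div_iff₀ ht]
    exact mul_le_of_le_one_right hε ht1
  have i5 : t * ε ≤ ε := mul_le_of_le_one_left hε ht1
  have i6 : η * b ≤ η := mul_le_of_le_one_right hη hb1
  have i7 : 0 ≤ K ^ 2 * (t * b) := by positivity
  have i8 : 0 ≤ K ^ 2 * t ^ 2 := by positivity
  linarith

end

end Pool.Agent.Helper47.Rot
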