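import Pool.Agent.Helper47.Rot.Main

/-!
The linear law for the asymmetry along the orbit, and the final contradiction.
-/

namespace Pool.Agent.Helper47.Rot

open Finset Filter Topology

universe u

section

variable {E : Type u} [NormedAddCommGroup E] [NormedSpace ℝ E]

variable {K r : ℝ}

theorem disp_bound (G : Geo E K r) {t : ℝ} {x y : E} (hx : ‖x‖ = 1) (hy : ‖y‖ = 1)
    (ht : 0 < t) (htr : 3 * t ≤ r) (htK : 4 * K * t ≤ 1) :
    y + t • (x - Jf y x • y) ≠ 0 ∧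
    ‖‖y + t • (x - Jf y x • y)‖⁻¹ • (y + t • (x - Jf y x • y)) - y‖ ≤ 3 * t := by
  have hK := G.K1
  set α : ℝ := Jf y x with hα
  set u : E := x - α • y with hu
  have hα1 : |α| ≤ 1 := by
    have := G.jle y hy x
    rwa [hx] at this
  have hun : ‖u‖ ≤ 2 := by
    rw [hu]
    refine (norm_sub_le _ _).trans ?_
    rw [norm_smul, hx, hy, mul_one, Real.norm_eq_abs]
    linarith
  have hJyu : Jf y u = 0 := by
    rw [hu, map_sub, map_smul, G.jself y hy, smul_eq_mul, mul_one, ← hα, sub_self]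
  have htu : ‖t • u‖ ≤ 2 * t := by
    rw [norm_smul, Real.norm_of_nonneg ht.le]
    nlinarith
  set l : ℝ := ‖y + t • u‖ with hl
  have hl1 : 1 ≤ l := by
    have h1 := G.jle y hy (y + t • u)
    rw [map_add, map_smul, hJyu, G.jself y hy] at h1
    simpa using (le_abs_self _).trans h1
  have hl2 : l ≤ 1 + 4 * K * t ^ 2 := by
    have h1 := G.nT y hy (t • u) (by linarith)
    rw [map_smul, hJyu, smul_zero, add_zero] at h1
    have h2 : ‖t • u‖ ^ 2 ≤ (2 * t) ^ 2 := by gcongr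
    nlinarith
  constructor
  · intro h0
    rw [h0, norm_zero] at hl
    linarith
  · have e1 : l⁻¹ • (y + t • u) - y = (l⁻¹ - 1) • (y + t • u) + t • u := by
      rw [sub_smul, one_smul]
      abel
    rw [e1]
    refine (norm_add_le _ _).trans ?_
    rw [norm_smul, ← hl, Real.norm_eq_abs, abs_sub_comm,
      abs_of_nonneg (sub_nonneg.2 (inv_le_one_of_one_le₀ hl1))]
    have : (1 - l⁻¹) * l = l - 1 := by field_simp
    rw [this]
    have h3 : (4 * K * t) * t ≤ 1 * t := by gcongr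
    nlinarith

theorem linear_law (G : Geo E K r) {Ψ ε η d b : ℝ} (hΨ0 : 0 ≤ Ψ) (hΨ2 : Ψ ≤ 2)
    (hd : 0 ≤ d) (hb : 0 ≤ b)
    (hE1 : ∀ x y : E, ‖x‖ = 1 → ‖y‖ = 1 → Ψ - ε ≤ Fa x y → ∀ v : E,
      |Jf x v - qf y v x - Ψ * Jf y v| ≤ η * ‖v‖)
    {x y : E} (hx : ‖x‖ = 1) (hy : ‖y‖ = 1) (hF : Ψ - ε ≤ Fa x y)
    (T : E ≃ₗᵢ[ℝ] E) (hTz : ∀ z, ‖T z - z‖ ≤ b * ‖z‖) (hTy : ‖T y - y‖ ≤ d)
    (n : ℕ) (hn : 1 ≤ n) (k : ℕ) (hk : k ≤ n) :
    |Fa ((T ^ k) x) x - k * Fa (T x) x| ≤ (2 + 2 * n) * η + 8 * K * n ^ 2 * (d * b) := by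
  have hK := G.K1
  have hK0 : 0 ≤ K := by linarith
  have hxk : ∀ k : ℕ, ‖(T ^ k) x - x‖ ≤ k * b := by
    intro k
    induction k with
    | zero => simp
    | succ k ih =>
      have e1 : (T ^ (k + 1)) x - x = (T ((T ^ k) x) - (T ^ k) x) + ((T ^ k) x - x) := by
        rw [pow_succ']
        change T ((T ^ k) x) - x = _
        abel
      rw [e1]
      refine (norm_add_le _ _).trans ?_
      have h1 := hTz ((T ^ k) x)
      rw [LinearIsometryEquiv.norm_map, hx, mul_one] at h1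
      push_cast
      linarith
  have hyk : ∀ k : ℕ, ‖(T ^ k) y - y‖ ≤ k * d := by
    intro k
    induction k with
    | zero => simp
    | succ k ih =>
      have e1 : (T ^ (k + 1)) y - y = (T ^ k) (T y - y) + ((T ^ k) y - y) := by
        rw [pow_succ, map_sub]
        change (T ^ k) (T y) - y = _
        abel
      rw [e1]
      refine (norm_add_le _ _).trans ?_
      rw [LinearIsometryEquiv.norm_map]
      push_cast
      linarith
  set Gk : ℕ → ℝ := fun k => qf ((T ^ k) y) x x - qf y x x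
    + Ψ * (Jf ((T ^ k) y) x - Jf y ((T ^ k) x)) with hGk
  have step1 : ∀ k : ℕ, |Fa ((T ^ k) x) x - Gk k| ≤ 2 * η + K * ((k * d) * (k * b)) := by
    intro k
    have hx1 : ‖(T ^ k) x‖ = 1 := by rw [LinearIsometryEquiv.norm_map, hx]
    have hy1 : ‖(T ^ k) y‖ = 1 := by rw [LinearIsometryEquiv.norm_map, hy]
    have h1 := hE1 ((T ^ k) x) ((T ^ k) y) hx1 hy1 (by rw [Fa_map]; exact hF) x
    have h2 := hE1 x y hx hy hF ((T ^ k) x)
    rw [hx, mul_one] at h1
    rw [hx1, mul_one] at h2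
    have h3 := G.qlip y ((T ^ k) y) hy hy1 ((T ^ k) x - x) x
    rw [hx, mul_one] at h3
    have h3' : K * ‖(T ^ k) y - y‖ * ‖(T ^ k) x - x‖ ≤ K * (k * d) * (k * b) := by
      gcongr
      · exact hyk k
      · exact hxk k
    rw [G.qsymm _ hy1 x ((T ^ k) x)] at h1
    have e1 : Fa ((T ^ k) x) x - Gk k
        = (Jf ((T ^ k) x) x - qf ((T ^ k) y) ((T ^ k) x) x - Ψ * Jf ((T ^ k) y) x)
        - (Jf x ((T ^ k) x) - qf y ((T ^ k) x) x - Ψ * Jf y ((T ^ k) x))
        + (qf ((T ^ k) y) ((T ^ k) x - x) x - qf y ((T ^ k) x - x) x) := by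
      rw [map_sub, map_sub, sub_apply, sub_apply, hGk]
      unfold Fa
      ring
    rw [e1]
    refine (abs_add_le _ _).trans ?_
    have h4 := abs_sub (Jf ((T ^ k) x) x - qf ((T ^ k) y) ((T ^ k) x) x - Ψ * Jf ((T ^ k) y) x)
      (Jf x ((T ^ k) x) - qf y ((T ^ k) x) x - Ψ * Jf y ((T ^ k) x))
    linarith
  have step2 : ∀ k : ℕ, |Gk (k + 1) - Gk k - Gk 1| ≤ 6 * K * (k * (d * b)) := by
    intro k
    obtain ⟨z, hz⟩ := (T ^ k).surjective x
    obtain ⟨zy, hzy⟩ := (T ^ k).surjective y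
    have hz1 : ‖z‖ = 1 := by rw [← LinearIsometryEquiv.norm_map (T ^ k) z, hz, hx]
    have hzy1 : ‖zy‖ = 1 := by rw [← LinearIsometryEquiv.norm_map (T ^ k) zy, hzy, hy]
    have hy'1 : ‖T y‖ = 1 := by rw [LinearIsometryEquiv.norm_map, hy]
    have hzx : ‖z - x‖ ≤ k * b := by
      rw [← LinearIsometryEquiv.norm_map (T ^ k) (z - x), map_sub, hz, norm_sub_rev]
      exact hxk k
    have hzyy : ‖zy - y‖ ≤ k * d := by
      rw [← LinearIsometryEquiv.norm_map (T ^ k) (zy - y), map_sub, hzy, norm_sub_rev]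
      exact hyk k
    have hTx : ‖T x - x‖ ≤ b := by
      have := hTz x
      rwa [hx, mul_one] at this
    have a1 : qf ((T ^ (k + 1)) y) x x = qf (T y) z z := by
      rw [pow_succ]
      have := qf_map (T ^ k) (T y) z z
      rw [hz] at this
      exact this
    have a2 : qf ((T ^ k) y) x x = qf y z z := by
      have := qf_map (T ^ k) y z z
      rwa [hz] at this
    have a3 : Jf ((T ^ (k + 1)) y) x = Jf (T y) z := by
      rw [pow_succ]
      have := Jf_map (T ^ k) (T y) z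
      rw [hz] at this
      exact this
    have a4 : Jf ((T ^ k) y) x = Jf y z := by
      have := Jf_map (T ^ k) y z
      rwa [hz] at this
    have a5 : Jf y ((T ^ (k + 1)) x) = Jf zy (T x) := by
      rw [pow_succ]
      have := Jf_map (T ^ k) zy (T x)
      rw [hzy] at this
      exact this
    have a6 : Jf y ((T ^ k) x) = Jf zy x := by
      have := Jf_map (T ^ k) zy x
      rwa [hzy] at this
    have e1 : Gk (k + 1) - Gk k - Gk 1
        = ((qf (T y) (z - x) z - qf y (z - x) z) + (qf (T y) x (z - x) - qf y x (z - x)))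
          + Ψ * ((Jf (T y) (z - x) - Jf y (z - x)) - (Jf zy (T x - x) - Jf y (T x - x))) := by
      simp only [hGk]
      rw [a1, a2, a3, a4, a5, a6, pow_one]
      simp only [map_sub, sub_apply]
      ring
    have b1 := G.qlip y (T y) hy hy'1 (z - x) z
    have b2 := G.qlip y (T y) hy hy'1 x (z - x)
    have b3 := G.jlip y (T y) hy hy'1 (z - x)
    have b4 := G.jlip y zy hy hzy1 (T x - x)
    rw [hz1, mul_one] at b1
    rw [hx, mul_one] at b2
    have c1 : K * ‖T y - y‖ * ‖z - x‖ ≤ K * (k * (d * b)) := by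
      calc K * ‖T y - y‖ * ‖z - x‖ ≤ K * d * (k * b) := by gcongr
        _ = _ := by ring
    have c4 : K * ‖zy - y‖ * ‖T x - x‖ ≤ K * (k * (d * b)) := by
      calc K * ‖zy - y‖ * ‖T x - x‖ ≤ K * (k * d) * b := by gcongr
        _ = _ := by ring
    rw [e1]
    refine (abs_add_le _ _).trans ?_
    rw [abs_mul, abs_of_nonneg hΨ0]
    have d1 := abs_add_le (qf (T y) (z - x) z - qf y (z - x) z)
      (qf (T y) x (z - x) - qf y x (z - x))
    have d2 := abs_sub (Jf (T y) (z - x) - Jf y (z - x)) (Jf zy (T x - x) - Jf y (T x - x))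
    have d3 : |(Jf (T y) (z - x) - Jf y (z - x)) - (Jf zy (T x - x) - Jf y (T x - x))|
        ≤ 2 * (K * (k * (d * b))) := by linarith
    have d4 : Ψ * |(Jf (T y) (z - x) - Jf y (z - x)) - (Jf zy (T x - x) - Jf y (T x - x))|
        ≤ 2 * (2 * (K * (k * (d * b)))) := by gcongr
    linarith
  have step3 : ∀ k : ℕ, k ≤ n → |Gk k - k * Gk 1| ≤ 6 * K * (n * (k * (d * b))) := by
    intro k
    induction k with
    | zero =>
      intro _
      simp [hGk]
    | succ k ih =>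
      intro hk
      have h1 := ih (by omega)
      have h2 := step2 k
      have e1 : Gk (k + 1) - ((k + 1 : ℕ) : ℝ) * Gk 1
          = (Gk (k + 1) - Gk k - Gk 1) + (Gk k - k * Gk 1) := by
        push_cast
        ring
      rw [e1]
      refine (abs_add_le _ _).trans ?_
      have hkn : (k : ℝ) ≤ n := by exact_mod_cast (by omega : k ≤ n)
      have h3 : 6 * K * (k * (d * b)) ≤ 6 * K * (n * (d * b)) := by gcongr
      push_cast
      have e2 : 6 * K * (n * (((k : ℝ) + 1) * (d * b)))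
          = 6 * K * (n * (d * b)) + 6 * K * (n * (k * (d * b))) := by ring
      rw [e2]
      linarith
  have h1 := step1 k
  have h2 := step3 k hk
  have h3 := step1 1
  rw [pow_one] at h3
  have hkn : (k : ℝ) ≤ n := by exact_mod_cast hk
  have hn1 : (1 : ℝ) ≤ n := by exact_mod_cast hn
  have e1 : Fa ((T ^ k) x) x - k * Fa (T x) x
      = (Fa ((T ^ k) x) x - Gk k) + (Gk k - k * Gk 1) - k * (Fa (T x) x - Gk 1) := by ring
  rw [e1]
  refine (abs_sub _ _).trans ?_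
  have h4 := abs_add_le (Fa ((T ^ k) x) x - Gk k) (Gk k - k * Gk 1)
  have hdb : 0 ≤ d * b := by positivity
  have h5 : |(k : ℝ) * (Fa (T x) x - Gk 1)| ≤ n * (2 * η + K * (d * b)) := by
    rw [abs_mul, abs_of_nonneg (by positivity : (0 : ℝ) ≤ k)]
    have : |Fa (T x) x - Gk 1| ≤ 2 * η + K * (d * b) := by
      refine h3.trans (le_of_eq ?_)
      push_cast
      ring
    gcongr
  have h6 : K * ((k * d) * (k * b)) ≤ K * (n ^ 2 * (d * b)) := by
    calc K * ((k * d) * (k * b)) = K * ((k : ℝ) ^ 2 * (d * b)) := by ring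
      _ ≤ _ := by gcongr
  have h7 : 6 * K * (n * (k * (d * b))) ≤ 6 * K * (n ^ 2 * (d * b)) := by
    calc 6 * K * (n * (k * (d * b))) ≤ 6 * K * (n * (n * (d * b))) := by gcongr
      _ = _ := by ring
  have h8 : (n : ℝ) * (K * (d * b)) ≤ K * (n ^ 2 * (d * b)) := by
    calc (n : ℝ) * (K * (d * b)) = K * (n * (d * b)) := by ring
      _ ≤ K * (n ^ 2 * (d * b)) := by
          gcongr
          exact le_self_pow₀ hn1 (by norm_num)
  linarith

theorem asym_le_zero {e : E} (he : ‖e‖ = 1) {C s : ℝ} (hC : 0 ≤ C) (hs : 0 < s) (hs1 : s ≤ 1)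
    (h : HolderMicro E C s) (x y : E) (hx : ‖x‖ = 1) (hy : ‖y‖ = 1) : Fa x y ≤ 0 := by
  have hE := simMicro_of_holder hC hs hs1 h
  obtain ⟨K, r, G⟩ := exists_geo he hs hE
  by_contra hcon
  push Not at hcon
  have hK := G.K1
  have hK0 : 0 ≤ K := by linarith
  have hrp := G.rpos
  set S : Set ℝ := {a | ∃ x y : E, ‖x‖ = 1 ∧ ‖y‖ = 1 ∧ Fa x y = a} with hS
  have hSb : ∀ a ∈ S, a ≤ 2 := by
    rintro a ⟨x, y, hx, hy, rfl⟩
    unfold Fa
    have h1 := (abs_le.1 (G.jle x hx y)).2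
    have h2 := (abs_le.1 (G.jle y hy x)).1
    rw [hy] at h1
    rw [hx] at h2
    linarith
  have hSbdd : BddAbove S := ⟨2, hSb⟩
  have hSne : S.Nonempty := ⟨_, x, y, hx, hy, rfl⟩
  set Ψ : ℝ := sSup S with hΨ
  have hmax : ∀ x y : E, ‖x‖ = 1 → ‖y‖ = 1 → Fa x y ≤ Ψ := fun x y hx hy =>
    le_csSup hSbdd ⟨x, y, hx, hy, rfl⟩
  have hΨpos : 0 < Ψ := hcon.trans_le (hmax x y hx hy)
  have hΨ2 : Ψ ≤ 2 := csSup_le hSne hSb
  have hnear : ∀ ε, 0 < ε → ∃ x y : E, ‖x‖ = 1 ∧ ‖y‖ = 1 ∧ Ψ - ε ≤ Fa x y := by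
    intro ε hε
    obtain ⟨a, ⟨x, y, hx, hy, hxy⟩, ha⟩ := exists_lt_of_lt_csSup hSne (by linarith : Ψ - ε < sSup S)
    exact ⟨x, y, hx, hy, by rw [hxy]; exact ha.le⟩
  clear_value Ψ
  clear hcon hx hy x y
  -- the order
  set n : ℕ := ⌈1 / s⌉₊ with hn
  have hn1 : 1 ≤ n := Nat.one_le_ceil_iff.2 (by positivity)
  have hns : 1 ≤ n * s := by
    have h1 : 1 / s ≤ n := Nat.le_ceil _
    rwa [div_le_iff₀ hs] at h1
  obtain ⟨c, hc1, K₂, b₀, hK₂, hb₀, hb₀1, hlog⟩ := exists_logbound he hs hE n hn1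
  set C₁ : ℝ := ∑ k ∈ range (n + 1), |c k| with hC₁
  have hC₁0 : 0 ≤ C₁ := sum_nonneg fun _ _ => abs_nonneg _
  set D₁ : ℝ := 6 * K₂ * C ^ (n + 1) + C₁ * (24 * K * n ^ 2) * C + 43 * K ^ 2 * C with hD₁
  set D₂ : ℝ := C₁ * ((2 + 2 * n) * (1 + 3 * K)) + 43 * K ^ 2 + 4 * (1 + 3 * K) with hD₂
  have key : ∀ᶠ t in 𝓝[>] (0 : ℝ), Ψ ^ 2 / 2 ≤ D₁ * (3 * t) ^ s + D₂ * t + 5 * t ^ 2 := by
    have hlim : Tendsto (fun t : ℝ => C * (3 * t) ^ s) (𝓝[>] 0) (𝓝 0) := by
      have h1 : Tendsto (fun t : ℝ => C * (3 * t) ^ s) (𝓝 0) (𝓝 (C * (3 * 0) ^ s)) := by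
        apply Tendsto.const_mul
        exact ((Real.continuousAt_rpow_const (3 * 0) s (Or.inr hs.le)).tendsto).comp
          ((continuous_const_mul (3 : ℝ)).tendsto 0)
      rw [mul_zero, Real.zero_rpow hs.ne', mul_zero] at h1
      exact h1.mono_left nhdsWithin_le_nhds
    have ev : ∀ m : ℝ, 0 < m → ∀ᶠ t in 𝓝[>] (0 : ℝ), t ≤ m := fun m hm =>
      nhdsWithin_le_nhds ((gt_mem_nhds hm : ∀ᶠ t in 𝓝 (0 : ℝ), t < m).mono fun _ h => h.le)
    have ev0 : ∀ᶠ t in 𝓝[>] (0 : ℝ), 0 < t := self_mem_nhdsWithin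
    have evb : ∀ᶠ t in 𝓝[>] (0 : ℝ), C * (3 * t) ^ s ≤ b₀ :=
      (hlim.eventually (gt_mem_nhds hb₀)).mono fun _ h => h.le
    filter_upwards [ev0, ev (1 / 3) (by norm_num), ev (r / 3) (by positivity),
      ev (1 / (4 * K)) (by positivity), ev (Ψ / 2) (by positivity), evb]
      with t ht ht3 htr htK htΨ htb
    have ht1 : t ≤ 1 := by linarith
    have htr' : 3 * t ≤ r := by linarith
    have htK' : 4 * K * t ≤ 1 := by
      calc 4 * K * t ≤ 4 * K * (1 / (4 * K)) := by gcongr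
        _ = 1 := by field_simp
    have ht2 : t ^ 2 ≤ t := by nlinarith
    have ht4 : t ^ 4 ≤ t := by
      calc t ^ 4 ≤ t ^ 1 := pow_le_pow_of_le_one ht.le ht1 (by norm_num)
        _ = t := pow_one t
    set b : ℝ := C * (3 * t) ^ s with hb
    have hb0 : 0 ≤ b := by positivity
    have hb1 : b ≤ 1 := htb.trans hb₀1
    set ε : ℝ := t ^ 4 with hε
    have hε0 : 0 < ε := by positivity
    set η : ℝ := (1 + 3 * K) * t ^ 2 with hη
    have hη0 : 0 ≤ η := by positivity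
    have hηeq : ε / t ^ 2 + 3 * K * t ^ 2 = η := by
      rw [hε, hη]
      field_simp
    have hE1 : ∀ x y : E, ‖x‖ = 1 → ‖y‖ = 1 → Ψ - ε ≤ Fa x y → ∀ v : E,
        |Jf x v - qf y v x - Ψ * Jf y v| ≤ η * ‖v‖ := by
      intro x y hx hy hF v
      have := first_order G hΨpos.le hΨ2 hmax hx hy hF (by positivity : 0 < t ^ 2)
        (by linarith) v
      rwa [hηeq] at this
    obtain ⟨x, y, hx, hy, hF⟩ := hnear ε hε0
    obtain ⟨hne, hdisp⟩ := disp_bound G hx hy ht htr' htK'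
    obtain ⟨T, hTy, hTz⟩ := h y
      (‖y + t • (x - Jf y x • y)‖⁻¹ • (y + t • (x - Jf y x • y))) hy
      (by
        have h1 : 0 < ‖y + t • (x - Jf y x • y)‖ := norm_pos_iff.2 hne
        rw [norm_smul, norm_inv, norm_norm]
        field_simp)
    have hTz' : ∀ z, ‖T z - z‖ ≤ b * ‖z‖ := by
      intro z
      refine (hTz z).trans ?_
      rw [hb]
      gcongr
    have hTyd : ‖T y - y‖ ≤ 3 * t := by rw [hTy]; exact hdisp
    have hlow := lower_bound G hΨpos.le hΨ2 hmax hx hy hF hε0.le hη0 ht ht1 htr' htK' hb0 hb1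
      (hE1 x y hx hy hF) T hTz' hTy
    -- kappa
    have hα := abs_le.1 (G.jle y hy x)
    have hβ := abs_le.1 (G.jle x hx y)
    rw [hx] at hα
    rw [hy] at hβ
    have hκ : Ψ / 2 ≤ 1 - Jf y x * Jf x y := by
      have h1 : Jf x y - Jf y x ≤ 1 - Jf y x * Jf x y := by
        nlinarith [mul_nonneg (sub_nonneg.2 hβ.2) (by linarith : 0 ≤ 1 + Jf y x)]
      have h2 : Ψ - ε ≤ Jf x y - Jf y x := hF
      linarith
    have hlow1 : Ψ ^ 2 / 2 * t ≤ Ψ * (1 - Jf y x * Jf x y) * t := by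
      have : Ψ * (Ψ / 2) * t ≤ Ψ * (1 - Jf y x * Jf x y) * t := by gcongr
      linarith
    -- the sum
    have hlin := fun k hk => linear_law G hΨpos.le hΨ2 (by positivity : (0 : ℝ) ≤ 3 * t) hb0
      hE1 hx hy hF T hTz' hTyd n hn1 k hk
    set Lin : ℝ := (2 + 2 * n) * η + 8 * K * n ^ 2 * (3 * t * b) with hLin
    have hl1 := hlog T b x hx hb0 htb hTz'
    have hTinv : ∀ z, ‖T⁻¹ z - z‖ ≤ b * ‖z‖ := by
      intro z
      have h1 : ‖T⁻¹ z - z‖ = ‖z - T z‖ := by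
        rw [← LinearIsometryEquiv.norm_map T (T⁻¹ z - z), map_sub]
        congr 2
        exact T.apply_symm_apply z
      rw [h1, norm_sub_rev]
      exact hTz' z
    have hl2 := hlog T⁻¹ b x hx hb0 htb hTinv
    have hJinv : ∀ k : ℕ, Jf x ((T⁻¹ ^ k) x) = Jf ((T ^ k) x) x := by
      intro k
      rw [← Jf_map (T ^ k) x ((T⁻¹ ^ k) x)]
      congr 1
      rw [inv_pow]
      exact (T ^ k).apply_symm_apply x
    simp only [hJinv] at hl2
    have hsum : ∑ k ∈ range (n + 1), c k * Fa ((T ^ k) x) x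
        = ∑ k ∈ range (n + 1), c k * Jf ((T ^ k) x) x
          - ∑ k ∈ range (n + 1), c k * Jf x ((T ^ k) x) := by
      rw [← sum_sub_distrib]
      apply sum_congr rfl
      intro k _
      unfold Fa
      ring
    have hsumle : |∑ k ∈ range (n + 1), c k * Fa ((T ^ k) x) x| ≤ 2 * K₂ * b ^ (n + 1) := by
      rw [hsum]
      refine (abs_sub _ _).trans ?_
      linarith
    have hdiff : |∑ k ∈ range (n + 1), c k * (Fa ((T ^ k) x) x - k * Fa (T x) x)| ≤ C₁ * Lin := by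
      refine (abs_sum_le_sum_abs _ _).trans ?_
      rw [hC₁, sum_mul]
      apply sum_le_sum
      intro k hk
      rw [abs_mul]
      gcongr
      exact hlin k (by rw [mem_range] at hk; omega)
    have hg1 : Fa (T x) x = ∑ k ∈ range (n + 1), c k * Fa ((T ^ k) x) x
        - ∑ k ∈ range (n + 1), c k * (Fa ((T ^ k) x) x - k * Fa (T x) x) := by
      rw [← sum_sub_distrib]
      have : ∀ k ∈ range (n + 1), c k * Fa ((T ^ k) x) x
          - c k * (Fa ((T ^ k) x) x - k * Fa (T x) x) = (c k * k) * Fa (T x) x := by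
        intro k _
        ring
      rw [sum_congr rfl this, ← sum_mul, hc1, one_mul]
    have hup : Fa (T x) x ≤ 2 * K₂ * b ^ (n + 1) + C₁ * Lin := by
      rw [hg1]
      have h1 := (abs_le.1 hsumle).2
      have h2 := (abs_le.1 hdiff).1
      linarith
    -- the power of `b`
    have hbn : b ^ (n + 1) ≤ C ^ (n + 1) * (3 * t) ^ s * (3 * t) := by
      have h3t : 0 < 3 * t := by positivity
      have h1 : ((3 * t) ^ s) ^ n ≤ 3 * t := by
        rw [← Real.rpow_natCast, ← Real.rpow_mul h3t.le]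
        calc (3 * t) ^ (s * n) ≤ (3 * t) ^ (1 : ℝ) := by
              apply Real.rpow_le_rpow_of_exponent_ge h3t (by linarith)
              linarith
          _ = 3 * t := Real.rpow_one _
      calc b ^ (n + 1) = C ^ (n + 1) * (3 * t) ^ s * ((3 * t) ^ s) ^ n := by
            rw [hb, mul_pow, pow_succ ((3 * t) ^ s)]
            ring
        _ ≤ _ := by gcongr
    have hεt : ε / t = t ^ 3 := by
      rw [hε]
      field_simp
    rw [hεt] at hlow
    have h3 : t ^ 3 ≤ t ^ 2 * t := by rw [← pow_succ]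
    have hfin : (Ψ ^ 2 / 2) * t ≤ (D₁ * (3 * t) ^ s + D₂ * t + 5 * t ^ 2) * t := by
      have hA : 2 * K₂ * b ^ (n + 1) ≤ 2 * K₂ * (C ^ (n + 1) * (3 * t) ^ s * (3 * t)) := by
        gcongr
      have hB : (D₁ * (3 * t) ^ s + D₂ * t + 5 * t ^ 2) * t
          = 2 * K₂ * (C ^ (n + 1) * (3 * t) ^ s * (3 * t)) + C₁ * Lin
            + 43 * K ^ 2 * (t * b + t ^ 2) + 4 * η + 5 * t ^ 3 := by
        rw [hLin, hη, hb, hD₁, hD₂]
        ring
      rw [hB]
      linarith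
    exact le_of_mul_le_mul_right hfin ht
  have hlim2 : Tendsto (fun t : ℝ => D₁ * (3 * t) ^ s + D₂ * t + 5 * t ^ 2) (𝓝[>] 0) (𝓝 0) := by
    have h1 : ContinuousAt (fun t : ℝ => D₁ * (3 * t) ^ s + D₂ * t + 5 * t ^ 2) 0 := by
      have h2 : ContinuousAt (fun t : ℝ => (3 * t) ^ s) 0 :=
        (Real.continuousAt_rpow_const (3 * 0) s (Or.inr hs.le)).comp
          ((continuous_const_mul (3 : ℝ)).continuousAt)
      fun_prop
    have h2 := h1.tendsto
    simp only [mul_zero, Real.zero_rpow hs.ne', add_zero, ne_eq, OfNat.ofNat_ne_zero,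
      not_false_eq_true, zero_pow] at h2
    exact h2.mono_left nhdsWithin_le_nhds
  have h3 : Ψ ^ 2 / 2 ≤ 0 := ge_of_tendsto hlim2 key
  have h4 : 0 < Ψ ^ 2 / 2 := by positivity
  linarith

end

end Pool.Agent.Helper47.Rot
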