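import Pool.Agent.Helper47.Rot.Diff

/-!
Equivariant maps on a space with a Hölder transitive similarity group are smooth.
-/

namespace Pool.Agent.Helper47.Rot

open Filter Topology

universe u v

section

variable {E : Type u} {V : Type v} [NormedAddCommGroup E] [NormedSpace ℝ E]
  [NormedAddCommGroup V] [NormedSpace ℝ V]

/-- linear similarities -/
def IsSim (M : E ≃L[ℝ] E) : Prop := ∃ c : ℝ, 0 < c ∧ ∀ z, ‖M z‖ = c * ‖z‖

theorem IsSim.symm {M : E ≃L[ℝ] E} (h : IsSim M) : IsSim M.symm := by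
  obtain ⟨c, hc, h⟩ := h
  refine ⟨c⁻¹, by positivity, fun z => ?_⟩
  have := h (M.symm z)
  rw [ContinuousLinearEquiv.apply_symm_apply] at this
  rw [this]
  field_simp

variable (E) in
/-- Hölder control of similarities moving points, uniformly on annuli -/
def SimMicro (s : ℝ) : Prop :=
  ∀ R : ℝ, 1 ≤ R → ∃ C r : ℝ, 0 ≤ C ∧ 0 < r ∧ ∀ x y : E, R⁻¹ ≤ ‖x‖ → ‖x‖ ≤ R → ‖y - x‖ ≤ r →
    ∃ M : E ≃L[ℝ] E, IsSim M ∧ M x = y ∧ ∀ z, ‖M z - z‖ ≤ C * ‖y - x‖ ^ s * ‖z‖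

/-- equivariant maps into a module on which near-identity similarities act nearly trivially -/
structure Equi (K : ℝ) (ρ : (E ≃L[ℝ] E) → V →L[ℝ] V) (ψ : E → V) : Prop where
  K_nonneg : 0 ≤ K
  equi : ∀ M, IsSim M → ∀ x, x ≠ 0 → ψ (M x) = ρ M (ψ x)
  near : ∀ M, IsSim M → ∀ b, 0 ≤ b → b ≤ 1 / 2 → (∀ z, ‖M z - z‖ ≤ b * ‖z‖) →
    ∀ v, ‖ρ M v - v‖ ≤ K * b * ‖v‖
  bdd : ∀ R, 1 ≤ R → ∃ B, ∀ x, R⁻¹ ≤ ‖x‖ → ‖x‖ ≤ R → ‖ψ x‖ ≤ B

theorem exists_small {s : ℝ} (hs : 0 < s) {c₁ c₂ c₃ : ℝ} {r₀ : ℝ} (hr₀ : 0 < r₀) :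
    ∃ r, 0 < r ∧ r ≤ r₀ ∧ c₁ * r ^ s ≤ 1 / 4 ∧ c₂ * r ^ s ≤ 1 / 4 ∧ c₃ * r ^ s ≤ 1 / 4 := by
  have h : ∀ c : ℝ, ∀ᶠ r in 𝓝[>] (0 : ℝ), c * r ^ s ≤ 1 / 4 := by
    intro c
    have h1 : Tendsto (fun r : ℝ => c * r ^ s) (𝓝[>] 0) (𝓝 (c * 0 ^ s)) :=
      (((Real.continuousAt_rpow_const 0 s (Or.inr hs.le)).tendsto).const_mul c).mono_left
        nhdsWithin_le_nhds
    rw [Real.zero_rpow hs.ne', mul_zero] at h1
    exact (h1.eventually (gt_mem_nhds (by norm_num : (0 : ℝ) < 1 / 4))).mono fun _ h => h.le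
  have h2 : ∀ᶠ r in 𝓝[>] (0 : ℝ), r ≤ r₀ :=
    nhdsWithin_le_nhds ((gt_mem_nhds hr₀ : ∀ᶠ r in 𝓝 (0 : ℝ), r < r₀).mono fun _ h => h.le)
  have h3 : ∀ᶠ r in 𝓝[>] (0 : ℝ), 0 < r := self_mem_nhdsWithin
  obtain ⟨r, hr⟩ := ((h c₁).and ((h c₂).and ((h c₃).and (h2.and h3)))).exists
  exact ⟨r, hr.2.2.2.2, hr.2.2.2.1, hr.1, hr.2.1, hr.2.2.1⟩

theorem Equi.lip {K : ℝ} {ρ : (E ≃L[ℝ] E) → V →L[ℝ] V} {ψ : E → V} (h : Equi K ρ ψ) {s : ℝ}
    (hs : 0 < s) (hE : SimMicro E s) (R : ℝ) (hR : 1 ≤ R) :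
    ∃ L r : ℝ, 0 ≤ L ∧ 0 < r ∧ ∀ x, R⁻¹ ≤ ‖x‖ → ‖x‖ ≤ R → ∀ y, ‖y - x‖ ≤ r →
      ‖ψ y - ψ x‖ ≤ L * ‖y - x‖ := by
  obtain ⟨C, r₀, hC, hr₀, hM⟩ := hE R hR
  obtain ⟨B₀, hB₀⟩ := h.bdd (2 * R) (by linarith)
  have hK := h.K_nonneg
  set B₁ : ℝ := max B₀ 0 with hB₁
  set γ : ℝ := (3 / 2 : ℝ) ^ s with hγ
  have hγ1 : 1 < γ := Real.one_lt_rpow (by norm_num) hs
  set B : ℝ := C * (K + 1) / (2 * (γ - 1)) with hB
  have hBn : 0 ≤ B := by
    apply div_nonneg (by positivity)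
    linarith
  have hBγ : 2 * B * (γ - 1) = C * (K + 1) := by
    rw [hB]
    have : γ - 1 ≠ 0 := by linarith
    field_simp
  have hr₀' : 0 < min r₀ (2 * R)⁻¹ := by positivity
  obtain ⟨r, hr, hrr₀, h1, h2, h3⟩ := exists_small (c₁ := C) (c₂ := K * C) (c₃ := B) hs hr₀'
  have hrr : r ≤ r₀ := hrr₀.trans (min_le_left _ _)
  have hrR : r ≤ (2 * R)⁻¹ := hrr₀.trans (min_le_right _ _)
  set A : ℝ := 12 * B₁ / r with hA
  have hAn : 0 ≤ A := by positivity
  refine ⟨A, r, hAn, hr, ?_⟩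
  intro x hx1 hx2
  have hx0 : x ≠ 0 := by
    intro h0
    rw [h0, norm_zero] at hx1
    have : 0 < R⁻¹ := by positivity
    linarith
  have hball : ∀ y, ‖y - x‖ ≤ r → ‖ψ y‖ ≤ B₁ := by
    intro y hy
    refine (hB₀ y ?_ ?_).trans (le_max_left _ _)
    · have h4 : ‖x‖ - ‖y‖ ≤ ‖y - x‖ := by
        rw [norm_sub_rev]
        exact norm_sub_norm_le _ _
      have h5 : (2 * R)⁻¹ = R⁻¹ / 2 := by
        field_simp
      rw [h5] at hrR ⊢
      linarith
    · have h4 : ‖y‖ - ‖x‖ ≤ ‖y - x‖ := norm_sub_norm_le _ _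
      have h5 : (2 * R)⁻¹ ≤ 1 := by
        apply inv_le_one_of_one_le₀
        linarith
      linarith
  have hxB : ‖ψ x‖ ≤ B₁ := hball x (by simpa using hr.le)
  have hBr : ∀ t : ℝ, 0 ≤ t → t ≤ r → B * t ^ s ≤ 1 / 4 := by
    intro t ht0 ht
    refine le_trans ?_ h3
    gcongr
  have P0 : ∀ y, ‖y - x‖ ≤ r → r / 3 ≤ ‖y - x‖ →
      ‖ψ y - ψ x‖ ≤ A * ‖y - x‖ * (1 - B * ‖y - x‖ ^ s) := by
    intro y hy1 hy2
    have h4 : ‖ψ y - ψ x‖ ≤ 2 * B₁ := by
      refine (norm_sub_le _ _).trans ?_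
      linarith [hball y hy1]
    have h5 := hBr _ (norm_nonneg _) hy1
    have h6 : A * (r / 3) = 4 * B₁ := by
      rw [hA]
      field_simp
      ring
    have h7 : A * (r / 3) ≤ A * ‖y - x‖ := by gcongr
    have h8 : 0 ≤ B₁ := le_max_right _ _
    nlinarith
  have P : ∀ n : ℕ, ∀ y, ‖y - x‖ ≤ r → (2 / 3 : ℝ) ^ n * (r / 3) ≤ ‖y - x‖ →
      ‖ψ y - ψ x‖ ≤ A * ‖y - x‖ * (1 - B * ‖y - x‖ ^ s) := by
    intro n
    induction n with
    | zero =>
      intro y hy1 hy2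
      exact P0 y hy1 (by simpa using hy2)
    | succ n ih =>
      intro y hy1 hy2
      rcases le_or_gt (r / 3) ‖y - x‖ with h4 | h4
      · exact P0 y hy1 h4
      · obtain ⟨M, hMs, hMx, hMz⟩ := hM x y hx1 hx2 (hy1.trans hrr)
        set t : ℝ := ‖y - x‖ with ht
        have htpos : 0 < t := lt_of_lt_of_le (by positivity) hy2
        set b : ℝ := C * t ^ s with hb
        have hts : 0 ≤ t ^ s := by positivity
        have htr : t ^ s ≤ r ^ s := by gcongr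
        have hb0 : 0 ≤ b := by positivity
        have hb1 : b ≤ 1 / 4 := by
          refine le_trans ?_ h1
          rw [hb]
          gcongr
        have hKb : K * b ≤ 1 / 4 := by
          refine le_trans ?_ h2
          rw [hb, ← mul_assoc]
          gcongr
        set w : V := ψ y - ψ x with hw
        have hψy : ψ y = ρ M (ψ x) := by rw [← hMx]; exact h.equi M hMs x hx0
        have hy0 : y ≠ 0 := by
          intro h0
          have h5 : M x = 0 := by rw [hMx, h0]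
          exact hx0 (by simpa using h5)
        have e1 : ψ (M y) - ψ x = (2 : ℝ) • w + (ρ M w - w) := by
          rw [h.equi M hMs y hy0, hw, map_sub, ← hψy]
          module
        have h6 : (2 - K * b) * ‖w‖ ≤ ‖ψ (M y) - ψ x‖ := by
          rw [e1]
          have h7 : ‖(2 : ℝ) • w‖ - ‖ρ M w - w‖ ≤ ‖(2 : ℝ) • w + (ρ M w - w)‖ := by
            have := norm_sub_norm_le ((2 : ℝ) • w) (-(ρ M w - w))
            rwa [norm_neg, sub_neg_eq_add] at this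
          have h8 := h.near M hMs b hb0 (by linarith) hMz w
          rw [norm_smul, Real.norm_ofNat] at h7
          linarith
        have e2 : M y - x = (2 : ℝ) • (y - x) + (M (y - x) - (y - x)) := by
          rw [map_sub, hMx]
          module
        have h9 : ‖M (y - x) - (y - x)‖ ≤ b * t := hMz _
        have h10 : ‖M y - x‖ ≤ (2 + b) * t := by
          rw [e2]
          refine (norm_add_le _ _).trans ?_
          rw [norm_smul, Real.norm_ofNat]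
          linarith
        have h11 : (2 - b) * t ≤ ‖M y - x‖ := by
          rw [e2]
          have := norm_sub_norm_le ((2 : ℝ) • (y - x)) (-(M (y - x) - (y - x)))
          rw [norm_neg, sub_neg_eq_add, norm_smul, Real.norm_ofNat] at this
          linarith
        set t' : ℝ := ‖M y - x‖ with ht'
        have h12 : 3 / 2 * t ≤ t' := by nlinarith
        have h13 : t' ≤ r := by nlinarith
        have h14 : (2 / 3 : ℝ) ^ n * (r / 3) ≤ t' := by
          refine le_trans ?_ h12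
          rw [pow_succ] at hy2
          linarith
        have h15 := ih (M y) h13 h14
        have h16 : γ * t ^ s ≤ t' ^ s := by
          rw [hγ, ← Real.mul_rpow (by norm_num) htpos.le]
          gcongr
        have hb' : B * t ^ s ≤ 1 / 4 := hBr t htpos.le hy1
        have h17 : A * t' * (1 - B * t' ^ s) ≤ A * ((2 + b) * t) * (1 - B * (γ * t ^ s)) := by
          have h18 : 1 - B * t' ^ s ≤ 1 - B * (γ * t ^ s) := by
            have : B * (γ * t ^ s) ≤ B * t' ^ s := by gcongr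
            linarith
          have h19 : 0 ≤ 1 - B * t' ^ s := by
            have := hBr t' (norm_nonneg _) h13
            linarith
          have h20 : 0 ≤ A * ((2 + b) * t) := by positivity
          calc A * t' * (1 - B * t' ^ s) ≤ A * ((2 + b) * t) * (1 - B * t' ^ s) := by gcongr
            _ ≤ _ := by gcongr
        have h21 : (2 + b) * (1 - B * (γ * t ^ s)) ≤ (2 - K * b) * (1 - B * t ^ s) := by
          have e3 : (2 - K * b) * (1 - B * t ^ s) - (2 + b) * (1 - B * (γ * t ^ s))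
              = t ^ s * (2 * B * (γ - 1) - C * (K + 1)) + (t ^ s) ^ 2 * (C * B) * (K + γ) := by
            rw [hb]
            ring
          have h22 : 0 ≤ (t ^ s) ^ 2 * (C * B) * (K + γ) := by positivity
          rw [hBγ, sub_self, mul_zero, zero_add] at e3
          linarith
        have h23 : (2 - K * b) * ‖w‖ ≤ (2 - K * b) * (A * t * (1 - B * t ^ s)) := by
          calc (2 - K * b) * ‖w‖ ≤ A * t' * (1 - B * t' ^ s) := h6.trans h15
            _ ≤ A * ((2 + b) * t) * (1 - B * (γ * t ^ s)) := h17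
            _ = A * t * ((2 + b) * (1 - B * (γ * t ^ s))) := by ring
            _ ≤ A * t * ((2 - K * b) * (1 - B * t ^ s)) := by gcongr
            _ = _ := by ring
        exact le_of_mul_le_mul_left h23 (by linarith)
  intro y hy
  rcases eq_or_ne y x with h4 | h4
  · rw [h4]; simp
  · have h5 : 0 < ‖y - x‖ := norm_pos_iff.2 (sub_ne_zero.2 h4)
    have h6 : Tendsto (fun n : ℕ => (2 / 3 : ℝ) ^ n * (r / 3)) atTop (𝓝 (0 * (r / 3))) :=
      (tendsto_pow_atTop_nhds_zero_of_lt_one (by norm_num) (by norm_num)).mul_const _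
    rw [zero_mul] at h6
    obtain ⟨n, hn⟩ := (h6.eventually (gt_mem_nhds h5)).exists
    have h7 := P n y hy hn.le
    have h8 : 0 ≤ B * ‖y - x‖ ^ s := by positivity
    have h9 : 0 ≤ A * ‖y - x‖ := by positivity
    exact h7.trans (mul_le_of_le_one_right h9 (by linarith))

theorem near_symm {M : E ≃L[ℝ] E} {b : ℝ} (hb : b ≤ 1 / 2)
    (h : ∀ z, ‖M z - z‖ ≤ b * ‖z‖) (z : E) : ‖M.symm z‖ ≤ 2 * ‖z‖ := by
  have h1 := h (M.symm z)
  rw [ContinuousLinearEquiv.apply_symm_apply] at h1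
  have h2 : ‖M.symm z‖ - ‖z‖ ≤ ‖z - M.symm z‖ := by
    rw [norm_sub_rev]
    exact norm_sub_norm_le _ _
  nlinarith [norm_nonneg (M.symm z)]

theorem near_symm' {M : E ≃L[ℝ] E} {b : ℝ} (hb0 : 0 ≤ b) (hb : b ≤ 1 / 2)
    (h : ∀ z, ‖M z - z‖ ≤ b * ‖z‖) (z : E) : ‖M.symm z - z‖ ≤ (2 * b) * ‖z‖ := by
  have h1 := h (M.symm z)
  rw [ContinuousLinearEquiv.apply_symm_apply, norm_sub_rev] at h1
  have h2 := near_symm hb h z
  nlinarith

omit [NormedSpace ℝ E] in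
theorem annulus_mono {R : ℝ} (hR : 1 ≤ R) {x y : E} (h1 : R⁻¹ ≤ ‖x‖) (h2 : ‖x‖ ≤ R)
    (h : ‖y - x‖ ≤ (2 * R)⁻¹) : (2 * R)⁻¹ ≤ ‖y‖ ∧ ‖y‖ ≤ 2 * R := by
  have h5 : (2 * R)⁻¹ = R⁻¹ / 2 := by field_simp
  have h6 : R⁻¹ ≤ 1 := inv_le_one_of_one_le₀ hR
  constructor
  · have h4 : ‖x‖ - ‖y‖ ≤ ‖y - x‖ := by
      rw [norm_sub_rev]
      exact norm_sub_norm_le _ _
    rw [h5] at h ⊢
    linarith
  · have h4 : ‖y‖ - ‖x‖ ≤ ‖y - x‖ := norm_sub_norm_le _ _
    rw [h5] at h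
    linarith

theorem Equi.second_diff {K : ℝ} {ρ : (E ≃L[ℝ] E) → V →L[ℝ] V} {ψ : E → V} (h : Equi K ρ ψ)
    {s : ℝ} (hs : 0 < s) (hE : SimMicro E s) (R : ℝ) (hR : 1 ≤ R) :
    ∃ D r : ℝ, 0 < r ∧ ∀ m, R⁻¹ ≤ ‖m‖ → ‖m‖ ≤ R → ∀ v, ‖v‖ ≤ r →
      ‖ψ (m + v) + ψ (m - v) - (2 : ℝ) • ψ m‖ ≤ D * ‖v‖ ^ (1 + s) := by
  obtain ⟨C, r₀, hC, hr₀, hM⟩ := hE R hR
  obtain ⟨L, r₁, hL0, hr₁, hL⟩ := h.lip hs hE (2 * R) (by linarith)
  have hK := h.K_nonneg
  have hr₀' : 0 < min (min r₀ r₁) (2 * R)⁻¹ := by positivity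
  obtain ⟨r, hr, hrr₀, h1, -, -⟩ := exists_small (c₁ := C) (c₂ := C) (c₃ := C) hs hr₀'
  have hrr0 : r ≤ r₀ := (hrr₀.trans (min_le_left _ _)).trans (min_le_left _ _)
  have hrr1 : r ≤ r₁ := (hrr₀.trans (min_le_left _ _)).trans (min_le_right _ _)
  have hrR : r ≤ (2 * R)⁻¹ := hrr₀.trans (min_le_right _ _)
  refine ⟨2 * C * L + K * (2 * C) * L, r, hr, ?_⟩
  intro m hm1 hm2 v hv
  have hm0 : m ≠ 0 := by
    intro h0
    rw [h0, norm_zero] at hm1
    have : 0 < R⁻¹ := by positivity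
    linarith
  obtain ⟨M, hMs, hMx, hMz⟩ := hM m (m + v) hm1 hm2 (by simpa using hv.trans hrr0)
  rw [add_sub_cancel_left] at hMz
  set b : ℝ := C * ‖v‖ ^ s with hb
  have hb0 : 0 ≤ b := by positivity
  have hb1 : b ≤ 1 / 4 := by
    refine le_trans ?_ h1
    rw [hb]
    gcongr
  have hmv0 : m + v ≠ 0 := by
    intro h0
    rw [h0] at hMx
    exact hm0 (by simpa using hMx)
  have e1 : M.symm (m + v) = m := by rw [← hMx]; simp
  have e2 : m - v - M.symm m = M.symm v - v := by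
    have : M.symm m = m - M.symm v := by
      rw [map_add] at e1
      exact eq_sub_of_add_eq e1
    rw [this]
    abel
  set w : V := ψ (m + v) - ψ m with hw
  have hwn : ‖w‖ ≤ L * ‖v‖ := by
    have hA := annulus_mono hR hm1 hm2 (y := m) (by simp; linarith)
    have := hL m hA.1 hA.2 (m + v) (by simpa using hv.trans hrr1)
    simpa using this
  have hρ1 : ρ M.symm (ψ (m + v)) = ψ m := by
    rw [← h.equi M.symm hMs.symm _ hmv0, e1]
  have hρ2 : ρ M.symm (ψ m) = ψ (M.symm m) := (h.equi M.symm hMs.symm _ hm0).symm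
  have e3 : ψ (m + v) + ψ (m - v) - (2 : ℝ) • ψ m
      = (ψ (m - v) - ψ (M.symm m)) - (ρ M.symm w - w) := by
    rw [hw, map_sub, hρ1, hρ2]
    module
  have h4 : ‖M.symm v - v‖ ≤ (2 * b) * ‖v‖ := near_symm' hb0 (by linarith) hMz v
  have h5 : ‖ψ (m - v) - ψ (M.symm m)‖ ≤ L * ((2 * b) * ‖v‖) := by
    have hA := annulus_mono hR hm1 hm2 (y := m - v) (by simpa using hv.trans hrR)
    have h6 : ‖M.symm m - (m - v)‖ = ‖M.symm v - v‖ := by rw [norm_sub_rev, e2]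
    have h7 := hL (m - v) hA.1 hA.2 (M.symm m) (by
      rw [h6]
      refine h4.trans ?_
      have : (2 * b) * ‖v‖ ≤ 1 * ‖v‖ := by
        gcongr
        linarith
      linarith)
    rw [norm_sub_rev]
    refine h7.trans ?_
    rw [h6]
    gcongr
  have h8 : ‖ρ M.symm w - w‖ ≤ K * (2 * b) * (L * ‖v‖) := by
    refine (h.near M.symm hMs.symm (2 * b) (by linarith) (by linarith)
      (near_symm' hb0 (by linarith) hMz) w).trans ?_
    gcongr
  rw [e3]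
  refine (norm_sub_le _ _).trans ?_
  have h9 : ‖v‖ ^ (1 + s) = ‖v‖ ^ s * ‖v‖ := by
    rcases eq_or_lt_of_le (norm_nonneg v) with h0 | h0
    · rw [← h0, Real.zero_rpow (by linarith)]
      ring
    · rw [Real.rpow_add h0, Real.rpow_one]
      ring
  rw [h9]
  calc ‖ψ (m - v) - ψ (M.symm m)‖ + ‖ρ M.symm w - w‖
      ≤ L * ((2 * b) * ‖v‖) + K * (2 * b) * (L * ‖v‖) := add_le_add h5 h8
    _ = _ := by rw [hb]; ring

theorem Equi.differentiableAt [CompleteSpace V] {K : ℝ} {ρ : (E ≃L[ℝ] E) → V →L[ℝ] V} {ψ : E → V}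
    (h : Equi K ρ ψ) {s : ℝ} (hs : 0 < s) (hE : SimMicro E s) {x : E} (hx : x ≠ 0) :
    DifferentiableAt ℝ ψ x := by
  -- choose an annulus
  have hxn : 0 < ‖x‖ := norm_pos_iff.2 hx
  set R : ℝ := max 1 (max ‖x‖ ‖x‖⁻¹) with hR
  have hR1 : 1 ≤ R := le_max_left _ _
  have hxR : ‖x‖ ≤ R := (le_max_left _ _).trans (le_max_right _ _)
  have hxR' : R⁻¹ ≤ ‖x‖ := by
    have h1 : ‖x‖⁻¹ ≤ R := (le_max_right _ _).trans (le_max_right _ _)
    have h2 := inv_anti₀ (by positivity) h1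
    simpa using h2
  obtain ⟨L, r₁, hL0, hr₁, hL⟩ := h.lip hs hE R hR1
  obtain ⟨D, r₂, hr₂, hD⟩ := h.second_diff hs hE (2 * R) (by linarith)
  set r : ℝ := min (min r₁ r₂) (2 * R)⁻¹ with hr
  have hrp : 0 < r := by positivity
  refine differentiableAt_of_second_diff (r := r) (L := L) (K := D) hs hrp ?_ ?_
  · intro v hv
    have := hL x hxR' hxR (x + v)
      (by simpa using hv.trans ((min_le_left _ _).trans (min_le_left _ _)))
    simpa using this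
  · intro m v hm hv
    have hA := annulus_mono hR1 hxR' hxR (hm.trans (min_le_right _ _))
    exact hD m hA.1 hA.2 v (hv.trans ((min_le_left _ _).trans (min_le_right _ _)))

/-- the action on derivatives -/
noncomputable def derivAct (ρ : (E ≃L[ℝ] E) → V →L[ℝ] V) (M : E ≃L[ℝ] E) :
    (E →L[ℝ] V) →L[ℝ] (E →L[ℝ] V) :=
  (ContinuousLinearMap.compL ℝ E V V (ρ M)).comp
    ((ContinuousLinearMap.compL ℝ E E V).flip (M.symm : E →L[ℝ] E))

theorem derivAct_apply (ρ : (E ≃L[ℝ] E) → V →L[ℝ] V) (M : E ≃L[ℝ] E) (A : E →L[ℝ] V) (z : E) :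
    derivAct ρ M A z = ρ M (A (M.symm z)) := rfl

theorem Equi.derivEqui [CompleteSpace V] {K : ℝ} {ρ : (E ≃L[ℝ] E) → V →L[ℝ] V} {ψ : E → V}
    (h : Equi K ρ ψ) {s : ℝ} (hs : 0 < s) (hE : SimMicro E s) :
    Equi (2 * K + 2) (derivAct ρ) (fderiv ℝ ψ) := by
  have hK := h.K_nonneg
  refine ⟨by linarith, ?_, ?_, ?_⟩
  · intro M hM x hx
    have hMx : M x ≠ 0 := by simpa using hx
    have h1 : (fun z => ψ (M z)) =ᶠ[𝓝 x] fun z => ρ M (ψ z) := by
      have : ∀ᶠ z in 𝓝 x, z ≠ 0 := isOpen_ne.mem_nhds hx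
      filter_upwards [this] with z hz
      exact h.equi M hM z hz
    have h2 : HasFDerivAt (fun z => ψ (M z)) ((fderiv ℝ ψ (M x)).comp (M : E →L[ℝ] E)) x :=
      (h.differentiableAt hs hE hMx).hasFDerivAt.comp x M.hasFDerivAt
    have h3 : HasFDerivAt (fun z => ρ M (ψ z)) ((ρ M).comp (fderiv ℝ ψ x)) x :=
      (ρ M).hasFDerivAt.comp x (h.differentiableAt hs hE hx).hasFDerivAt
    have h4 := (h3.congr_of_eventuallyEq h1).unique h2
    ext z
    have h5 := congrArg (fun T : E →L[ℝ] V => T (M.symm z)) h4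
    simp only [ContinuousLinearMap.comp_apply, ContinuousLinearEquiv.coe_coe,
      ContinuousLinearEquiv.apply_symm_apply] at h5
    rw [derivAct_apply, h5]
  · intro M hM b hb0 hb hMz A
    apply ContinuousLinearMap.opNorm_le_bound _ (by positivity)
    intro z
    have e1 : (derivAct ρ M A - A) z = (ρ M (A (M.symm z)) - A (M.symm z)) + A (M.symm z - z) := by
      rw [sub_apply, derivAct_apply, map_sub]
      abel
    rw [e1]
    refine (norm_add_le _ _).trans ?_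
    have h1 : ‖A (M.symm z)‖ ≤ ‖A‖ * (2 * ‖z‖) :=
      (A.le_opNorm _).trans (by gcongr; exact near_symm hb hMz z)
    have h2 := h.near M hM b hb0 hb hMz (A (M.symm z))
    have h3 : ‖A (M.symm z - z)‖ ≤ ‖A‖ * ((2 * b) * ‖z‖) :=
      (A.le_opNorm _).trans (by gcongr; exact near_symm' hb0 hb hMz z)
    have h4 : K * b * ‖A (M.symm z)‖ ≤ K * b * (‖A‖ * (2 * ‖z‖)) := by gcongr
    calc ‖ρ M (A (M.symm z)) - A (M.symm z)‖ + ‖A (M.symm z - z)‖
        ≤ K * b * (‖A‖ * (2 * ‖z‖)) + ‖A‖ * ((2 * b) * ‖z‖) := add_le_add (h2.trans h4) h3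
      _ = _ := by ring
  · intro R hR
    obtain ⟨L, r, hL0, hr, hL⟩ := h.lip hs hE R hR
    refine ⟨L, fun x hx1 hx2 => ?_⟩
    apply norm_fderiv_le_of_lip' ℝ hL0
    have : ∀ᶠ y in 𝓝 x, ‖y - x‖ < r := by
      have := Metric.ball_mem_nhds x hr
      filter_upwards [this] with y hy
      rwa [mem_ball_iff_norm] at hy
    filter_upwards [this] with y hy
    exact hL x hx1 hx2 y hy.le

end

theorem Equi.contDiffOn {E : Type u} [NormedAddCommGroup E] [NormedSpace ℝ E] {s : ℝ} (hs : 0 < s)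
    (hE : SimMicro E s) (n : ℕ) :
    ∀ {V : Type u} [NormedAddCommGroup V] [NormedSpace ℝ V] [CompleteSpace V] {K : ℝ}
      {ρ : (E ≃L[ℝ] E) → V →L[ℝ] V} {ψ : E → V}, Equi K ρ ψ →
      ContDiffOn ℝ n ψ {0}ᶜ ∧
        ∀ R : ℝ, 1 ≤ R → ∃ B, ∀ x, R⁻¹ ≤ ‖x‖ → ‖x‖ ≤ R → ‖iteratedFDeriv ℝ n ψ x‖ ≤ B := by
  have hopen : IsOpen ({0}ᶜ : Set E) := isOpen_compl_singleton
  induction n with
  | zero =>
    intro V _ _ _ K ρ ψ h
    constructor
    · rw [Nat.cast_zero, contDiffOn_zero]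
      intro x hx
      exact (h.differentiableAt hs hE hx).continuousAt.continuousWithinAt
    · intro R hR
      obtain ⟨B, hB⟩ := h.bdd R hR
      refine ⟨B, fun x h1 h2 => ?_⟩
      rw [norm_iteratedFDeriv_zero]
      exact hB x h1 h2
  | succ n ih =>
    intro V _ _ _ K ρ ψ h
    obtain ⟨h1, h2⟩ := ih (h.derivEqui hs hE)
    constructor
    · rw [Nat.cast_succ, contDiffOn_succ_iff_fderiv_of_isOpen hopen]
      refine ⟨fun x hx => (h.differentiableAt hs hE hx).differentiableWithinAt, ?_, h1⟩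
      intro h3
      simp at h3
    · intro R hR
      obtain ⟨B, hB⟩ := h2 R hR
      refine ⟨B, fun x h3 h4 => ?_⟩
      rw [← norm_iteratedFDeriv_fderiv]
      exact hB x h3 h4

end Pool.Agent.Helper47.Rot
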